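import Mathlib

set_option autoImplicit false
open Finset Filter Topology

namespace Pool.Agent.H977_rd

section

variable {G : Type*} [Group G]

/-- the convolution operator, in the form of the problem -/
noncomputable def Mop (ν : G →₀ ℝ) (h : G → ℝ) (x : G) : ℝ := ν.sum (fun y a => a * h (y⁻¹ * x))

noncomputable def Mlin (ν : G →₀ ℝ) : Module.End ℝ (G → ℝ) where
  toFun := Mop ν
  map_add' h k := by
    ext x
    simp only [Mop, Finsupp.sum, Pi.add_apply]
    rw [← Finset.sum_add_distrib]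
    refine Finset.sum_congr rfl ?_
    intro y _
    ring
  map_smul' c h := by
    ext x
    simp only [Mop, Finsupp.sum, Pi.smul_apply, smul_eq_mul, RingHom.id_apply]
    rw [Finset.mul_sum]
    refine Finset.sum_congr rfl ?_
    intro y _
    ring

lemma Mlin_pow (ν : G →₀ ℝ) (n : ℕ) (h : G → ℝ) : (Mlin ν ^ n) h = (Mop ν)^[n] h := by
  rw [Module.End.pow_apply]
  rfl

lemma Mop_mono {ν : G →₀ ℝ} (hν : ∀ x, 0 ≤ ν x) {h k : G → ℝ} (hk : ∀ x, h x ≤ k x) (x : G) :
    Mop ν h x ≤ Mop ν k x := by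
  unfold Mop Finsupp.sum
  refine Finset.sum_le_sum ?_
  intro y _
  exact mul_le_mul_of_nonneg_left (hk _) (hν y)

lemma Mop_iter_mono {ν : G →₀ ℝ} (hν : ∀ x, 0 ≤ ν x) (n : ℕ) {h k : G → ℝ} (hk : ∀ x, h x ≤ k x)
    (x : G) : (Mop ν)^[n] h x ≤ (Mop ν)^[n] k x := by
  induction n generalizing x with
  | zero => exact hk x
  | succ n ih =>
    rw [Function.iterate_succ_apply', Function.iterate_succ_apply']
    exact Mop_mono hν ih x

lemma Mop_iter_nonneg {ν : G →₀ ℝ} (hν : ∀ x, 0 ≤ ν x) (n : ℕ) {h : G → ℝ} (hk : ∀ x, 0 ≤ h x)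
    (x : G) : 0 ≤ (Mop ν)^[n] h x := by
  induction n generalizing x with
  | zero => exact hk x
  | succ n ih =>
    rw [Function.iterate_succ_apply']
    unfold Mop Finsupp.sum
    exact Finset.sum_nonneg (fun y _ => mul_nonneg (hν y) (ih _))

/-- delta at the identity -/
noncomputable def dl : G → ℝ := Set.indicator ({1} : Set G) (fun _ => (1 : ℝ))

lemma dl_nonneg (x : G) : 0 ≤ dl x := Set.indicator_nonneg (fun _ _ => zero_le_one) x

/-- expansion of a solution of `g = δ + z ν * g` -/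
lemma expand {ν : G →₀ ℝ} {z : ℝ} {g : G → ℝ} (hg : ∀ x, g x = dl x + z * Mop ν g x) (N : ℕ) :
    g = ∑ n ∈ range N, z ^ n • (Mlin ν ^ n) dl + z ^ N • (Mlin ν ^ N) g := by
  have hg' : g = dl + z • Mlin ν g := by
    ext x
    exact hg x
  induction N with
  | zero => simp
  | succ N ih =>
    rw [Finset.sum_range_succ]
    conv_lhs => rw [ih]
    rw [add_assoc]
    congr 1
    conv_lhs => rw [hg']
    rw [map_add, map_smul, smul_add, pow_succ, pow_succ]
    congr 1
    rw [smul_smul]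
    rfl

lemma partial_le {ν : G →₀ ℝ} (hν : ∀ x, 0 ≤ ν x) {z : ℝ} (hz : 0 ≤ z) {g : G → ℝ}
    (hg0 : ∀ x, 0 ≤ g x) (hg : ∀ x, g x = dl x + z * Mop ν g x) (N : ℕ) :
    ∑ n ∈ range N, z ^ n * (Mop ν)^[n] dl (1 : G) ≤ g 1 := by
  have h := congrFun (expand hg N) 1
  rw [h]
  simp only [Pi.add_apply, Finset.sum_apply, Pi.smul_apply, smul_eq_mul, Mlin_pow]
  have : 0 ≤ z ^ N * (Mop ν)^[N] g 1 := mul_nonneg (pow_nonneg hz N) (Mop_iter_nonneg hν N hg0 1)
  linarith

lemma iter_le {ν : G →₀ ℝ} (hν : ∀ x, 0 ≤ ν x) {z : ℝ} (hz : 0 ≤ z) {g : G → ℝ}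
    (hg : ∀ x, g x = dl x + z * Mop ν g x) (N : ℕ) (x : G) :
    z ^ N * (Mop ν)^[N] g x ≤ g x := by
  have h := congrFun (expand hg N) x
  conv_rhs => rw [h]
  simp only [Pi.add_apply, Finset.sum_apply, Pi.smul_apply, smul_eq_mul, Mlin_pow]
  have : 0 ≤ ∑ n ∈ range N, z ^ n * (Mop ν)^[n] dl x :=
    Finset.sum_nonneg (fun n _ => mul_nonneg (pow_nonneg hz n) (Mop_iter_nonneg hν n dl_nonneg x))
  linarith

/-- The Green function at `1` for the parameter `z` is the value of the explicit solution, provided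
it is dominated by a solution for a larger parameter. -/
theorem green_eq {ν : G →₀ ℝ} (hν : ∀ x, 0 ≤ ν x) {z z' : ℝ} (hz : 0 ≤ z) (hzz : z < z')
    {g g' : G → ℝ} (hg0 : ∀ x, 0 ≤ g x) (hle : ∀ x, g x ≤ g' x)
    (hg : ∀ x, g x = dl x + z * Mop ν g x) (hg' : ∀ x, g' x = dl x + z' * Mop ν g' x) :
    HasSum (fun n => z ^ n * (Mop ν)^[n] dl (1 : G)) (g 1) := by
  have hz' : 0 < z' := lt_of_le_of_lt hz hzz
  rw [hasSum_iff_tendsto_nat_of_nonneg (fun n => mul_nonneg (pow_nonneg hz n)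
    (Mop_iter_nonneg hν n dl_nonneg 1))]
  have h1 : ∀ N, ∑ n ∈ range N, z ^ n * (Mop ν)^[n] dl (1 : G) = g 1 - z ^ N * (Mop ν)^[N] g 1 := by
    intro N
    have h := congrFun (expand hg N) 1
    simp only [Pi.add_apply, Finset.sum_apply, Pi.smul_apply, smul_eq_mul, Mlin_pow] at h
    linarith
  simp_rw [h1]
  have h2 : Tendsto (fun N => z ^ N * (Mop ν)^[N] g 1) atTop (𝓝 0) := by
    have hup : ∀ N, z ^ N * (Mop ν)^[N] g 1 ≤ (z / z') ^ N * g' 1 := by
      intro N
      have h3 := Mop_iter_mono hν N hle 1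
      have h4 := iter_le hν hz'.le hg' N 1
      calc z ^ N * (Mop ν)^[N] g 1 ≤ z ^ N * (Mop ν)^[N] g' 1 :=
            mul_le_mul_of_nonneg_left h3 (pow_nonneg hz N)
        _ = (z / z') ^ N * (z' ^ N * (Mop ν)^[N] g' 1) := by
            rw [div_pow]
            field_simp
        _ ≤ (z / z') ^ N * g' 1 := by gcongr
    have hlo : ∀ N, 0 ≤ z ^ N * (Mop ν)^[N] g 1 := fun N =>
      mul_nonneg (pow_nonneg hz N) (Mop_iter_nonneg hν N hg0 1)
    refine squeeze_zero hlo hup ?_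
    have h5 : Tendsto (fun N => (z / z') ^ N) atTop (𝓝 0) :=
      tendsto_pow_atTop_nhds_zero_of_lt_one (by positivity) ((div_lt_one hz').2 hzz)
    simpa using h5.mul_const (g' 1)
  have := tendsto_const_nhds (x := g 1) (f := (atTop : Filter ℕ))
  simpa using this.sub h2

end

/-- the operator norm as in the problem exists for a symmetric or general probability -/
theorem exists_rho {G : Type*} [Group G] (ν : G →₀ ℝ) (hν : ∀ x, 0 ≤ ν x)
    (hsum : ν.sum (fun _ a => a) = 1) :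
    ∃ ρ : ℝ, 0 ≤ ρ ∧
      (∀ g : G →₀ ℝ, ∀ T : Finset G,
        ∑ x ∈ T, (ν.sum (fun y a => a * g (y⁻¹ * x))) ^ 2 ≤
          ρ ^ 2 * g.sum (fun _ a => a ^ 2)) ∧
      (∀ r : ℝ, 0 ≤ r → r < ρ → ∃ g : G →₀ ℝ, ∃ T : Finset G,
        r ^ 2 * g.sum (fun _ a => a ^ 2) <
          ∑ x ∈ T, (ν.sum (fun y a => a * g (y⁻¹ * x))) ^ 2) := by
  classical
  set E : Set ℝ := {r | 0 ≤ r ∧ ∀ g : G →₀ ℝ, ∀ T : Finset G,
        ∑ x ∈ T, (ν.sum (fun y a => a * g (y⁻¹ * x))) ^ 2 ≤
          r ^ 2 * g.sum (fun _ a => a ^ 2)} with hE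
  have h1 : (1:ℝ) ∈ E := by
    refine ⟨zero_le_one, ?_⟩
    intro g T
    rw [one_pow, one_mul]
    have h2 : ∀ x, (ν.sum (fun y a => a * g (y⁻¹ * x))) ^ 2
        ≤ ∑ y ∈ ν.support, ν y * g (y⁻¹ * x) ^ 2 := by
      intro x
      have h3 := Finset.sum_mul_sq_le_sq_mul_sq ν.support (fun y => √(ν y))
        (fun y => √(ν y) * g (y⁻¹ * x))
      have h4 : ∑ y ∈ ν.support, √(ν y) * (√(ν y) * g (y⁻¹ * x))
          = ν.sum (fun y a => a * g (y⁻¹ * x)) := by
        unfold Finsupp.sum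
        refine Finset.sum_congr rfl ?_
        intro y _
        rw [← mul_assoc, Real.mul_self_sqrt (hν y)]
      have h5 : ∑ y ∈ ν.support, √(ν y) ^ 2 = 1 := by
        rw [← hsum]
        unfold Finsupp.sum
        refine Finset.sum_congr rfl ?_
        intro y _
        rw [Real.sq_sqrt (hν y)]
      have h6 : ∑ y ∈ ν.support, (√(ν y) * g (y⁻¹ * x)) ^ 2
          = ∑ y ∈ ν.support, ν y * g (y⁻¹ * x) ^ 2 := by
        refine Finset.sum_congr rfl ?_
        intro y _
        rw [mul_pow, Real.sq_sqrt (hν y)]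
      rw [h4, h5, h6, one_mul] at h3
      exact h3
    calc ∑ x ∈ T, (ν.sum (fun y a => a * g (y⁻¹ * x))) ^ 2
        ≤ ∑ x ∈ T, ∑ y ∈ ν.support, ν y * g (y⁻¹ * x) ^ 2 := Finset.sum_le_sum (fun x _ => h2 x)
      _ = ∑ y ∈ ν.support, ν y * ∑ x ∈ T, g (y⁻¹ * x) ^ 2 := by
          rw [Finset.sum_comm]
          refine Finset.sum_congr rfl ?_
          intro y _
          rw [Finset.mul_sum]
      _ ≤ ∑ y ∈ ν.support, ν y * g.sum (fun _ a => a ^ 2) := by
          refine Finset.sum_le_sum ?_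
          intro y _
          refine mul_le_mul_of_nonneg_left ?_ (hν y)
          have h7 : ∑ x ∈ T, g (y⁻¹ * x) ^ 2 = ∑ u ∈ T.image (fun x => y⁻¹ * x), g u ^ 2 := by
            rw [Finset.sum_image]
            intro a _ b _ hab
            exact mul_left_cancel hab
          rw [h7]
          unfold Finsupp.sum
          calc ∑ u ∈ T.image (fun x => y⁻¹ * x), g u ^ 2
              = ∑ u ∈ (T.image (fun x => y⁻¹ * x)).filter (fun u => g u ≠ 0), g u ^ 2 := by
                rw [Finset.sum_filter]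
                refine Finset.sum_congr rfl ?_
                intro u _
                split_ifs with h
                · rfl
                · push Not at h; rw [h]; ring
            _ ≤ ∑ u ∈ g.support, g u ^ 2 := by
                refine Finset.sum_le_sum_of_subset_of_nonneg ?_ (fun _ _ _ => sq_nonneg _)
                intro u hu
                rw [Finset.mem_filter] at hu
                exact Finsupp.mem_support_iff.2 hu.2
      _ = g.sum (fun _ a => a ^ 2) := by
          rw [← Finset.sum_mul]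
          have : ∑ y ∈ ν.support, ν y = 1 := hsum
          rw [this, one_mul]
  have hbdd : BddBelow E := ⟨0, fun r hr => hr.1⟩
  have hclosed : IsClosed E := by
    have : E = Set.Ici 0 ∩ ⋂ (g : G →₀ ℝ) (T : Finset G), {r : ℝ |
        ∑ x ∈ T, (ν.sum (fun y a => a * g (y⁻¹ * x))) ^ 2 ≤ r ^ 2 * g.sum (fun _ a => a ^ 2)} := by
      ext r
      simp [hE]
    rw [this]
    refine isClosed_Ici.inter ?_
    refine isClosed_iInter ?_
    intro g
    refine isClosed_iInter ?_
    intro T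
    exact isClosed_le continuous_const (by fun_prop)
  have hmem := hclosed.csInf_mem ⟨1, h1⟩ hbdd
  refine ⟨sInf E, hmem.1, hmem.2, ?_⟩
  intro r hr hlt
  by_contra hcon
  push Not at hcon
  have : r ∈ E := ⟨hr, hcon⟩
  have := csInf_le hbdd this
  linarith

end Pool.Agent.H977_rd
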