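import Mathlib

set_option autoImplicit false
open Finset

namespace Pool.Agent.H977_rd

variable {G : Type*} [Group G]

/-- A centroid structure: centres of triangles `(1, y, x)` with polynomially many possible values. -/
structure Centroid (L : G → ℕ) (P : ℕ → ℕ) where
  c : G → G → G
  E1 : G → ℕ → Finset G
  E2 : G → ℕ → Finset G
  E3 : G → ℕ → Finset G
  card1 : ∀ x r, (E1 x r).card ≤ P r
  card2 : ∀ x r, (E2 x r).card ≤ P r
  card3 : ∀ x r, (E3 x r).card ≤ P r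
  mem1 : ∀ y x r, L y ≤ r → c y x ∈ E1 x r
  mem2 : ∀ y x r, L y ≤ r → c y x ∈ E2 y r
  mem3 : ∀ y x r, L y ≤ r → y⁻¹ * c y x ∈ E3 (y⁻¹ * x) r

open Classical in
lemma bracket {L : G → ℕ} {P : ℕ → ℕ} (K : Centroid L P) (r : ℕ) (Y T : Finset G)
    (hY : ∀ y ∈ Y, L y ≤ r) (g : G →₀ ℝ) (y : G) (hy : L y ≤ r) :
    ∑ x ∈ T, ∑ y' ∈ Y.filter (fun y' => K.c y' x = K.c y x), g (y'⁻¹ * x) ^ 2
      ≤ (P r : ℝ) ^ 2 * ∑ u ∈ g.support, g u ^ 2 := by
  set Q : Finset (G × G) := (T ×ˢ Y).filter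
    (fun p => K.c p.2 p.1 = K.c y p.1 ∧ g (p.2⁻¹ * p.1) ≠ 0) with hQ
  have h1 : ∑ x ∈ T, ∑ y' ∈ Y.filter (fun y' => K.c y' x = K.c y x), g (y'⁻¹ * x) ^ 2
      = ∑ p ∈ Q, g (p.2⁻¹ * p.1) ^ 2 := by
    rw [hQ]
    rw [Finset.sum_filter, Finset.sum_product]
    refine Finset.sum_congr rfl ?_
    intro x _
    rw [Finset.sum_filter]
    refine Finset.sum_congr rfl ?_
    intro y' _
    simp only
    by_cases hc : K.c y' x = K.c y x
    · by_cases hg : g (y'⁻¹ * x) = 0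
      · simp [hc, hg]
      · simp [hc, hg]
    · simp [hc]
  have hmaps : ∀ p ∈ Q, p.2⁻¹ * p.1 ∈ g.support := by
    intro p hp
    rw [hQ, Finset.mem_filter] at hp
    exact Finsupp.mem_support_iff.2 hp.2.2
  rw [h1, ← Finset.sum_fiberwise_of_maps_to hmaps, Finset.mul_sum]
  refine Finset.sum_le_sum ?_
  intro u _
  have h2 : ∑ p ∈ Q.filter (fun p => p.2⁻¹ * p.1 = u), g (p.2⁻¹ * p.1) ^ 2
      = (Q.filter (fun p => p.2⁻¹ * p.1 = u)).card * g u ^ 2 := by
    rw [← nsmul_eq_mul, ← Finset.sum_const]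
    refine Finset.sum_congr rfl ?_
    intro p hp
    rw [Finset.mem_filter] at hp
    rw [hp.2]
  rw [h2]
  have hcard : (Q.filter (fun p => p.2⁻¹ * p.1 = u)).card ≤ P r * P r := by
    calc (Q.filter (fun p => p.2⁻¹ * p.1 = u)).card
        ≤ (K.E2 y r ×ˢ K.E3 u r).card := by
          refine Finset.card_le_card_of_injOn (fun p => (K.c y p.1, p.2⁻¹ * K.c y p.1)) ?_ ?_
          · intro p hp
            have hp' := Finset.mem_coe.1 hp
            rw [Finset.mem_filter, hQ, Finset.mem_filter, Finset.mem_product] at hp'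
            obtain ⟨⟨⟨_, hpY⟩, hpc, _⟩, hpu⟩ := hp'
            rw [Finset.mem_coe, Finset.mem_product]
            refine ⟨K.mem2 y p.1 r hy, ?_⟩
            have := K.mem3 p.2 p.1 r (hY _ hpY)
            rw [hpu, hpc] at this
            exact this
          · intro p hp p' hp' heq
            have hp1 := Finset.mem_coe.1 hp
            have hp2 := Finset.mem_coe.1 hp'
            rw [Finset.mem_filter] at hp1 hp2
            simp only [Prod.mk.injEq] at heq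
            have e1 : p.2 = p'.2 := by
              have h3 := heq.2
              rw [heq.1] at h3
              have := mul_right_cancel h3
              exact inv_injective this
            have e2 : p.1 = p'.1 := by
              have h3 := hp1.2
              have h4 := hp2.2
              rw [e1] at h3
              exact mul_left_cancel (h3.trans h4.symm)
            exact Prod.ext e2 e1
      _ = (K.E2 y r).card * (K.E3 u r).card := Finset.card_product _ _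
      _ ≤ P r * P r := Nat.mul_le_mul (K.card2 _ _) (K.card3 _ _)
  have hcard' : ((Q.filter (fun p => p.2⁻¹ * p.1 = u)).card : ℝ) ≤ (P r : ℝ) ^ 2 := by
    rw [pow_two]
    exact_mod_cast hcard
  exact mul_le_mul_of_nonneg_right hcard' (sq_nonneg _)

open Classical in
lemma slice {L : G → ℕ} {P : ℕ → ℕ} (K : Centroid L P) (r : ℕ) (Y T : Finset G)
    (hY : ∀ y ∈ Y, L y ≤ r) (φ : G → ℝ) (g : G →₀ ℝ) :
    ∑ x ∈ T, (∑ y ∈ Y, φ y * g (y⁻¹ * x)) ^ 2
      ≤ (P r : ℝ) ^ 3 * (∑ y ∈ Y, φ y ^ 2) * ∑ u ∈ g.support, g u ^ 2 := by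
  have h1 : ∀ x, (∑ y ∈ Y, φ y * g (y⁻¹ * x)) ^ 2
      ≤ (P r : ℝ) * ∑ y ∈ Y, φ y ^ 2 *
        ∑ y' ∈ Y.filter (fun y' => K.c y' x = K.c y x), g (y'⁻¹ * x) ^ 2 := by
    intro x
    have hmaps : ∀ y ∈ Y, K.c y x ∈ K.E1 x r := fun y hy => K.mem1 y x r (hY y hy)
    rw [← Finset.sum_fiberwise_of_maps_to hmaps]
    refine (sq_sum_le_card_mul_sum_sq).trans ?_
    have hP : ((K.E1 x r).card : ℝ) ≤ P r := by exact_mod_cast K.card1 x r
    refine mul_le_mul hP ?_ (Finset.sum_nonneg (fun _ _ => sq_nonneg _)) (Nat.cast_nonneg _)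
    rw [← Finset.sum_fiberwise_of_maps_to hmaps (fun y => φ y ^ 2 *
        ∑ y' ∈ Y.filter (fun y' => K.c y' x = K.c y x), g (y'⁻¹ * x) ^ 2)]
    refine Finset.sum_le_sum ?_
    intro m _
    refine (Finset.sum_mul_sq_le_sq_mul_sq _ _ _).trans ?_
    rw [Finset.sum_mul]
    refine Finset.sum_le_sum ?_
    intro y hy
    rw [Finset.mem_filter] at hy
    rw [hy.2]
  calc ∑ x ∈ T, (∑ y ∈ Y, φ y * g (y⁻¹ * x)) ^ 2
      ≤ ∑ x ∈ T, (P r : ℝ) * ∑ y ∈ Y, φ y ^ 2 *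
        ∑ y' ∈ Y.filter (fun y' => K.c y' x = K.c y x), g (y'⁻¹ * x) ^ 2 :=
        Finset.sum_le_sum (fun x _ => h1 x)
    _ = (P r : ℝ) * ∑ y ∈ Y, φ y ^ 2 * ∑ x ∈ T,
        ∑ y' ∈ Y.filter (fun y' => K.c y' x = K.c y x), g (y'⁻¹ * x) ^ 2 := by
        rw [← Finset.mul_sum, Finset.sum_comm]
        congr 1
        refine Finset.sum_congr rfl ?_
        intro y _
        rw [Finset.mul_sum]
    _ ≤ (P r : ℝ) * ∑ y ∈ Y, φ y ^ 2 * ((P r : ℝ) ^ 2 * ∑ u ∈ g.support, g u ^ 2) := by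
        refine mul_le_mul_of_nonneg_left ?_ (Nat.cast_nonneg _)
        refine Finset.sum_le_sum ?_
        intro y hy
        exact mul_le_mul_of_nonneg_left (bracket K r Y T hY g y (hY y hy)) (sq_nonneg _)
    _ = _ := by
        rw [← Finset.sum_mul]
        ring

noncomputable def ZZ : ℝ := ∑' r : ℕ, (1 / ((r : ℝ) + 1)) ^ 2

lemma summable_ZZ : Summable (fun r : ℕ => (1 / ((r : ℝ) + 1)) ^ 2) := by
  have := (summable_nat_add_iff 1).2 (Real.summable_one_div_nat_pow.2 (one_lt_two))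
  refine this.congr ?_
  intro n
  push_cast
  rw [one_div_pow]

lemma sum_inv_sq_le (s : Finset ℕ) : ∑ r ∈ s, (1 / ((r : ℝ) + 1)) ^ 2 ≤ ZZ :=
  summable_ZZ.sum_le_tsum s (fun _ _ => sq_nonneg _)

lemma ZZ_nonneg : 0 ≤ ZZ := tsum_nonneg (fun _ => sq_nonneg _)

open Classical in
/-- Rapid decay from centroids. -/
theorem rd_of_centroid {L : G → ℕ} {P : ℕ → ℕ} (K : Centroid L P) {C : ℝ} {s : ℕ} (hC : 0 ≤ C)
    (hP : ∀ r : ℕ, (1 + (r : ℝ)) ^ 2 * (P r : ℝ) ^ 3 ≤ C * (1 + (r : ℝ)) ^ (2 * s))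
    (f g : G →₀ ℝ) (T : Finset G) :
    ∑ x ∈ T, (f.sum (fun y a => a * g (y⁻¹ * x))) ^ 2 ≤
      (ZZ * C) * (f.sum (fun x a => a ^ 2 * (1 + (L x : ℝ)) ^ (2 * s))) * g.sum (fun _ a => a ^ 2) := by
  set F := f.support with hF
  set R := F.image L with hR
  have hmaps : ∀ y ∈ F, L y ∈ R := fun y hy => Finset.mem_image_of_mem _ hy
  have h1 : ∀ x, (f.sum (fun y a => a * g (y⁻¹ * x)))
      = ∑ r ∈ R, ∑ y ∈ F.filter (fun y => L y = r), f y * g (y⁻¹ * x) := by
    intro x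
    rw [Finset.sum_fiberwise_of_maps_to hmaps]
    rfl
  have h2 : ∀ x, (f.sum (fun y a => a * g (y⁻¹ * x))) ^ 2
      ≤ ZZ * ∑ r ∈ R, (1 + (r : ℝ)) ^ 2 *
          (∑ y ∈ F.filter (fun y => L y = r), f y * g (y⁻¹ * x)) ^ 2 := by
    intro x
    rw [h1]
    have h3 : ∑ r ∈ R, ∑ y ∈ F.filter (fun y => L y = r), f y * g (y⁻¹ * x)
        = ∑ r ∈ R, (1 / ((r : ℝ) + 1)) * ((1 + (r : ℝ)) *
          ∑ y ∈ F.filter (fun y => L y = r), f y * g (y⁻¹ * x)) := by
      refine Finset.sum_congr rfl ?_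
      intro r _
      have : (0:ℝ) < (r:ℝ) + 1 := by positivity
      field_simp
      ring
    rw [h3]
    refine (Finset.sum_mul_sq_le_sq_mul_sq _ _ _).trans ?_
    have h4 : ∑ r ∈ R, ((1 + (r : ℝ)) *
        ∑ y ∈ F.filter (fun y => L y = r), f y * g (y⁻¹ * x)) ^ 2
        = ∑ r ∈ R, (1 + (r : ℝ)) ^ 2 *
          (∑ y ∈ F.filter (fun y => L y = r), f y * g (y⁻¹ * x)) ^ 2 := by
      refine Finset.sum_congr rfl ?_
      intro r _
      rw [mul_pow]
    rw [h4]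
    refine mul_le_mul_of_nonneg_right (sum_inv_sq_le R) ?_
    exact Finset.sum_nonneg (fun _ _ => by positivity)
  have hg : g.sum (fun _ a => a ^ 2) = ∑ u ∈ g.support, g u ^ 2 := rfl
  have hg0 : 0 ≤ ∑ u ∈ g.support, g u ^ 2 := Finset.sum_nonneg (fun _ _ => sq_nonneg _)
  have hZ := ZZ_nonneg
  calc ∑ x ∈ T, (f.sum (fun y a => a * g (y⁻¹ * x))) ^ 2
      ≤ ∑ x ∈ T, ZZ * ∑ r ∈ R, (1 + (r : ℝ)) ^ 2 *
          (∑ y ∈ F.filter (fun y => L y = r), f y * g (y⁻¹ * x)) ^ 2 :=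
        Finset.sum_le_sum (fun x _ => h2 x)
    _ = ZZ * ∑ r ∈ R, (1 + (r : ℝ)) ^ 2 * ∑ x ∈ T,
          (∑ y ∈ F.filter (fun y => L y = r), f y * g (y⁻¹ * x)) ^ 2 := by
        rw [← Finset.mul_sum, Finset.sum_comm]
        congr 1
        refine Finset.sum_congr rfl ?_
        intro r _
        rw [Finset.mul_sum]
    _ ≤ ZZ * ∑ r ∈ R, (1 + (r : ℝ)) ^ 2 * ((P r : ℝ) ^ 3 *
          (∑ y ∈ F.filter (fun y => L y = r), f y ^ 2) * ∑ u ∈ g.support, g u ^ 2) := by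
        refine mul_le_mul_of_nonneg_left ?_ hZ
        refine Finset.sum_le_sum ?_
        intro r _
        refine mul_le_mul_of_nonneg_left ?_ (by positivity)
        refine slice K r _ T ?_ (fun y => f y) g
        intro y hy
        rw [Finset.mem_filter] at hy
        exact hy.2.le
    _ ≤ ZZ * ∑ r ∈ R, (C * ∑ y ∈ F.filter (fun y => L y = r),
          f y ^ 2 * (1 + (L y : ℝ)) ^ (2 * s)) * ∑ u ∈ g.support, g u ^ 2 := by
        refine mul_le_mul_of_nonneg_left ?_ hZ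
        refine Finset.sum_le_sum ?_
        intro r _
        have h5 : (1 + (r : ℝ)) ^ 2 * ((P r : ℝ) ^ 3 *
          (∑ y ∈ F.filter (fun y => L y = r), f y ^ 2) * ∑ u ∈ g.support, g u ^ 2)
          = ((1 + (r : ℝ)) ^ 2 * (P r : ℝ) ^ 3) *
            (∑ y ∈ F.filter (fun y => L y = r), f y ^ 2) * ∑ u ∈ g.support, g u ^ 2 := by ring
        rw [h5]
        refine mul_le_mul_of_nonneg_right ?_ hg0
        have h6 : ∑ y ∈ F.filter (fun y => L y = r), f y ^ 2 * (1 + (L y : ℝ)) ^ (2 * s)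
            = (1 + (r : ℝ)) ^ (2 * s) * ∑ y ∈ F.filter (fun y => L y = r), f y ^ 2 := by
          rw [Finset.mul_sum]
          refine Finset.sum_congr rfl ?_
          intro y hy
          rw [Finset.mem_filter] at hy
          rw [hy.2]
          ring
        rw [h6, ← mul_assoc]
        exact mul_le_mul_of_nonneg_right (hP r) (Finset.sum_nonneg (fun _ _ => sq_nonneg _))
    _ = _ := by
        rw [hg, ← Finset.sum_mul, ← Finset.mul_sum]
        rw [Finset.sum_fiberwise_of_maps_to hmaps (fun y => f y ^ 2 * (1 + (L y : ℝ)) ^ (2 * s))]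
        have : (f.sum (fun x a => a ^ 2 * (1 + (L x : ℝ)) ^ (2 * s)))
            = ∑ y ∈ F, f y ^ 2 * (1 + (L y : ℝ)) ^ (2 * s) := rfl
        rw [this]
        ring

end Pool.Agent.H977_rd
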