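import Mathlib
import Pool.Agent.H977_rd.Centroid

set_option autoImplicit false
open Finset Monoid Monoid.CoprodI

namespace Pool.Agent.H977_rd

/-- longest common beginning of two lists -/
def lcp {α : Type*} [DecidableEq α] : List α → List α → List α
  | a :: l, b :: l' => if a = b then a :: lcp l l' else []
  | _, _ => []

lemma lcp_eq_take_left {α : Type*} [DecidableEq α] (l l' : List α) :
    lcp l l' = l.take (lcp l l').length := by
  induction l generalizing l' with
  | nil => cases l' <;> simp [lcp]
  | cons a l ih =>
    cases l' with
    | nil => simp [lcp]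
    | cons b l' =>
      by_cases h : a = b
      · subst h
        simp only [lcp, if_true, List.length_cons, List.take_succ_cons]
        congr 1
        exact ih l'
      · simp [lcp, h]

lemma lcp_eq_take_right {α : Type*} [DecidableEq α] (l l' : List α) :
    lcp l l' = l'.take (lcp l l').length := by
  induction l generalizing l' with
  | nil => cases l' <;> simp [lcp]
  | cons a l ih =>
    cases l' with
    | nil => simp [lcp]
    | cons b l' =>
      by_cases h : a = b
      · subst h
        simp only [lcp, if_true, List.length_cons, List.take_succ_cons]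
        congr 1
        exact ih l'
      · simp [lcp, h]

lemma lcp_length_le {α : Type*} [DecidableEq α] (l l' : List α) :
    (lcp l l').length ≤ l.length := by
  rw [lcp_eq_take_left]
  simp

variable {ι : Type*} [DecidableEq ι] {G : ι → Type*} [∀ i, Group (G i)] [∀ i, DecidableEq (G i)]

/-- product of a list of letters -/
def pr (l : List (Σ i, G i)) : CoprodI G := (l.map (fun p => of p.2)).prod

lemma pr_toList (w : Word G) : pr w.toList = w.prod := rfl

/-- reduced word of an element -/
def wd (x : CoprodI G) : Word G := x • (Word.empty : Word G)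

lemma prod_wd (x : CoprodI G) : (wd x).prod = x := by
  unfold wd
  rw [Word.prod_smul, Word.prod_empty, mul_one]

lemma wd_prod (w : Word G) : wd w.prod = w := Word.equiv.right_inv w

lemma wd_smul (x y : CoprodI G) : wd (x * y) = x • wd y := by
  unfold wd
  rw [mul_smul]

/-- letterwise inverse -/
def linv (p : Σ i, G i) : Σ i, G i := ⟨p.1, p.2⁻¹⟩

lemma pr_reverse_inv (l : List (Σ i, G i)) : pr ((l.map linv).reverse) = (pr l)⁻¹ := by
  unfold pr
  rw [List.prod_inv_reverse, ← List.map_reverse, ← List.map_reverse, List.map_map, ← List.map_reverse,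
    List.map_map]
  congr 1

lemma cons_smul_of_ne {i : ι} (m : G i) (W : Word G) (hW : W.fstIdx ≠ some i) (hm : m ≠ 1) :
    of m • W = Word.cons m W hW hm := (Word.cons_eq_smul).symm

lemma inv_append (t : Word G) : ∀ (W : Word G), (∀ i, t.fstIdx = some i → W.fstIdx ≠ some i) →
    ((t.prod)⁻¹ • W).toList = (t.toList.map linv).reverse ++ W.toList := by
  induction t using Word.consRecOn with
  | empty =>
    intro W _
    rw [Word.prod_empty, inv_one, one_smul]
    rfl
  | cons i m t h1 h2 ih =>
    intro W hW
    have hWi : W.fstIdx ≠ some i := hW i (Word.fstIdx_cons m t h1 h2)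
    have hm : m⁻¹ ≠ 1 := inv_ne_one.2 h2
    rw [Word.prod_cons, mul_inv_rev, mul_smul, ← map_inv, cons_smul_of_ne m⁻¹ W hWi hm]
    rw [ih]
    · simp [Word.cons, linv]
    · intro j hj hcon
      rw [Word.fstIdx_cons] at hcon
      rw [Option.some.injEq] at hcon
      rw [hcon] at h1
      exact h1 hj

/-- Key structural fact: positions of centres seen from the far side. -/
lemma core (wy : Word G) : ∀ wx : Word G,
    (wy.prod)⁻¹ * pr (lcp wy.toList wx.toList) = 1 ∨
    ∃ j ≤ wy.toList.length, ∃ p ∈ wy.toList,
      (wy.prod)⁻¹ * pr (lcp wy.toList wx.toList)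
        = pr ((wd ((wy.prod)⁻¹ * wx.prod)).toList.take j) * of p.2⁻¹ := by
  induction wy using Word.consRecOn with
  | empty =>
    intro wx
    left
    rw [Word.prod_empty, inv_one, one_mul]
    have : lcp (Word.empty : Word G).toList wx.toList = [] := by
      cases wx.toList <;> rfl
    rw [this]
    rfl
  | cons i m ty h1 h2 ih =>
    intro wx
    -- decompose wx with respect to the i-th factor
    set q := Word.equivPair i wx with hq
    have hwx : wx = Word.rcons q := by
      rw [hq, ← Word.equivPair_symm, Equiv.symm_apply_apply]
    by_cases hqm : q.head = m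
    · -- same first letter
      have hwx' : wx = Word.cons m q.tail q.fstIdx_ne h2 := by
        rw [hwx]
        unfold Word.rcons
        rw [dif_neg (by rw [hqm]; exact h2)]
        congr 1
      have hl : lcp (Word.cons m ty h1 h2).toList wx.toList
          = ⟨i, m⟩ :: lcp ty.toList q.tail.toList := by
        rw [hwx']
        simp [Word.cons, lcp]
      have hpr : pr (⟨i, m⟩ :: lcp ty.toList q.tail.toList)
          = of m * pr (lcp ty.toList q.tail.toList) := by
        unfold pr
        rw [List.map_cons, List.prod_cons]
      have hwxp : wx.prod = of m * q.tail.prod := by rw [hwx', Word.prod_cons]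
      have e1 : (Word.cons m ty h1 h2).prod⁻¹ * (of m * pr (lcp ty.toList q.tail.toList))
          = ty.prod⁻¹ * pr (lcp ty.toList q.tail.toList) := by
        rw [Word.prod_cons]
        group
      have e2 : (Word.cons m ty h1 h2).prod⁻¹ * wx.prod = ty.prod⁻¹ * q.tail.prod := by
        rw [hwxp, Word.prod_cons]
        group
      rw [hl, hpr, e1, e2]
      rcases ih q.tail with h | ⟨j, hj, p, hp, h⟩
      · left; exact h
      · right
        refine ⟨j, ?_, p, ?_, h⟩
        · simp only [Word.cons, List.length_cons]
          omega
        · simp only [Word.cons, List.mem_cons]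
          right; exact hp
    · -- different first letters
      right
      have hl : lcp (Word.cons m ty h1 h2).toList wx.toList = [] := by
        have hwl : wx.toList = (Word.rcons q).toList := by rw [← hwx]
        rw [hwl]
        unfold Word.rcons
        by_cases hq1 : q.head = 1
        · rw [dif_pos hq1]
          have hne := q.fstIdx_ne
          rw [Word.fstIdx_ne_iff] at hne
          rcases hlist : q.tail.toList with _ | ⟨b, l'⟩
          · simp [Word.cons, lcp]
          · have : i ≠ b.1 := hne b (by rw [hlist]; rfl)
            simp only [Word.cons, lcp]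
            rw [if_neg]
            intro hcon
            exact this (by rw [← hcon])
        · rw [dif_neg hq1]
          simp only [Word.cons, lcp]
          rw [if_neg]
          intro hcon
          apply hqm
          simp only [Sigma.mk.injEq, heq_eq_eq, true_and] at hcon
          exact hcon.symm
      rw [hl]
      have hpr0 : pr ([] : List (Σ i, G i)) = 1 := rfl
      rw [hpr0, mul_one]
      set W : Word G := of m⁻¹ • wx with hW
      have hWf : W.fstIdx = some i := by
        rw [hW, Word.of_smul_def, ← hq]
        unfold Word.rcons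
        rw [dif_neg]
        · exact Word.fstIdx_cons _ _ _ _
        · simp only
          intro hcon
          apply hqm
          rw [inv_mul_eq_one] at hcon
          exact hcon.symm
      have hu : wd ((Word.cons m ty h1 h2).prod⁻¹ * wx.prod) = ty.prod⁻¹ • W := by
        rw [wd_smul, wd_prod, Word.prod_cons, mul_inv_rev, mul_smul, hW, map_inv]
      have happ := inv_append ty W (by
        intro j hj hcon
        rw [hWf, Option.some.injEq] at hcon
        rw [hcon] at h1
        exact h1 hj)
      refine ⟨ty.toList.length, ?_, ⟨i, m⟩, ?_, ?_⟩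
      · simp only [Word.cons, List.length_cons]
        omega
      · simp [Word.cons]
      · rw [hu, happ]
        have htake : ((ty.toList.map linv).reverse ++ W.toList).take ty.toList.length
            = (ty.toList.map linv).reverse := by
          rw [List.take_append_of_le_length (by simp)]
          rw [List.take_of_length_le (by simp)]
        rw [htake, pr_reverse_inv, pr_toList, Word.prod_cons, mul_inv_rev, map_inv]

/-- length data on the factors -/
structure FL (G : ι → Type*) [∀ i, Group (G i)] where
  ℓ : ∀ i, G i → ℕ
  ball : ∀ i, ℕ → Finset (G i)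
  V : ℕ → ℕ
  one : ∀ i, ℓ i 1 = 0
  pos : ∀ i (m : G i), m ≠ 1 → 1 ≤ ℓ i m
  mul : ∀ i (m m' : G i), ℓ i (m * m') ≤ ℓ i m + ℓ i m'
  mem_ball : ∀ i r (m : G i), ℓ i m ≤ r → m ∈ ball i r
  card_ball : ∀ i r, (ball i r).card ≤ V r

variable (D : FL G)

def wl (w : Word G) : ℕ := (w.toList.map (fun p => D.ℓ p.1 p.2)).sum

def Lf (x : CoprodI G) : ℕ := wl D (wd x)

lemma wl_cons {i : ι} (m : G i) (w : Word G) (h1) (h2) :
    wl D (Word.cons m w h1 h2) = D.ℓ i m + wl D w := by
  unfold wl
  simp [Word.cons]

lemma wl_rcons {i : ι} (p : Word.Pair G i) : wl D (Word.rcons p) = D.ℓ i p.head + wl D p.tail := by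
  unfold Word.rcons
  split_ifs with h
  · rw [h, D.one, zero_add]
  · exact wl_cons D _ _ _ _

lemma length_le_wl (w : Word G) : w.toList.length ≤ wl D w := by
  induction w using Word.consRecOn with
  | empty => simp [Word.empty, wl]
  | cons i m w h1 h2 ih =>
    rw [wl_cons]
    have := D.pos i m h2
    simp only [Word.cons, List.length_cons]
    omega

lemma letter_le_wl (w : Word G) : ∀ p ∈ w.toList, D.ℓ p.1 p.2 ≤ wl D w := by
  induction w using Word.consRecOn with
  | empty => simp [Word.empty]
  | cons i m w h1 h2 ih =>
    intro p hp
    rw [wl_cons]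
    simp only [Word.cons, List.mem_cons] at hp
    rcases hp with rfl | hp
    · simp
    · have := ih p hp
      omega

lemma Lf_of_mul {i : ι} (m : G i) (x : CoprodI G) : Lf D (of m * x) ≤ D.ℓ i m + Lf D x := by
  unfold Lf
  rw [wd_smul, Word.of_smul_def, wl_rcons]
  have h : wl D (wd x) = D.ℓ i (Word.equivPair i (wd x)).head
      + wl D (Word.equivPair i (wd x)).tail := by
    rw [← wl_rcons, ← Word.equivPair_symm, Equiv.symm_apply_apply]
  rw [h]
  have := D.mul i m (Word.equivPair i (wd x)).head
  simp only
  omega

lemma Lf_one : Lf D (1 : CoprodI G) = 0 := by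
  unfold Lf wd
  rw [one_smul]
  rfl

lemma Lf_prod_le (l : List (CoprodI G)) (hl : ∀ y ∈ l, ∃ i, ∃ m : G i, y = of m ∧ D.ℓ i m ≤ 1) :
    Lf D l.prod ≤ l.length := by
  induction l with
  | nil => rw [List.prod_nil, Lf_one]; exact Nat.zero_le _
  | cons y l ih =>
    obtain ⟨i, m, rfl, hm⟩ := hl y (by simp)
    rw [List.prod_cons, List.length_cons]
    have h1 := Lf_of_mul D m l.prod
    have h2 := ih (fun z hz => hl z (by simp [hz]))
    omega

variable [Fintype ι]

def PP (r : ℕ) : ℕ := 1 + (r + 1) * (1 + Fintype.card ι * D.V r)

/-- The centroid structure on a free product. -/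
def centroid : Centroid (Lf D) (PP D) where
  c y x := pr (lcp (wd y).toList (wd x).toList)
  E1 x r := (range (r + 1)).image (fun j => pr ((wd x).toList.take j))
  E2 x r := (range (r + 1)).image (fun j => pr ((wd x).toList.take j))
  E3 u r := insert 1 ((range (r + 1) ×ˢ (univ.sigma (fun i => D.ball i r))).image
    (fun q => pr ((wd u).toList.take q.1) * of q.2.2⁻¹))
  card1 x r := by
    refine (Finset.card_image_le).trans ?_
    rw [card_range]
    unfold PP
    nlinarith [Nat.zero_le ((r + 1) * (Fintype.card ι * D.V r))]
  card2 x r := by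
    refine (Finset.card_image_le).trans ?_
    rw [card_range]
    unfold PP
    nlinarith [Nat.zero_le ((r + 1) * (Fintype.card ι * D.V r))]
  card3 u r := by
    refine (Finset.card_insert_le _ _).trans ?_
    have h1 : ((range (r + 1) ×ˢ (univ.sigma (fun i => D.ball i r))).image
        (fun q => pr ((wd u).toList.take q.1) * of q.2.2⁻¹)).card
        ≤ (r + 1) * (Fintype.card ι * D.V r) := by
      refine (Finset.card_image_le).trans ?_
      rw [card_product, card_range, card_sigma]
      refine Nat.mul_le_mul le_rfl ?_
      calc ∑ i : ι, (D.ball i r).card ≤ ∑ _i : ι, D.V r := sum_le_sum (fun i _ => D.card_ball i r)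
        _ = _ := by simp
    unfold PP
    nlinarith
  mem1 y x r h := by
    rw [mem_image]
    refine ⟨(lcp (wd y).toList (wd x).toList).length, ?_, ?_⟩
    · rw [mem_range]
      have h1 := lcp_length_le (wd y).toList (wd x).toList
      have h2 := length_le_wl D (wd y)
      unfold Lf at h
      omega
    · rw [← lcp_eq_take_right]
  mem2 y x r h := by
    rw [mem_image]
    refine ⟨(lcp (wd y).toList (wd x).toList).length, ?_, ?_⟩
    · rw [mem_range]
      have h1 := lcp_length_le (wd y).toList (wd x).toList
      have h2 := length_le_wl D (wd y)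
      unfold Lf at h
      omega
    · rw [← lcp_eq_take_left]
  mem3 y x r h := by
    have hc := core (wd y) (wd x)
    rw [prod_wd, prod_wd] at hc
    rcases hc with h1 | ⟨j, hj, p, hp, h1⟩
    · rw [h1]
      exact mem_insert_self _ _
    · rw [h1]
      refine mem_insert_of_mem ?_
      rw [mem_image]
      refine ⟨(j, p), ?_, rfl⟩
      rw [mem_product, mem_range, mem_sigma]
      have h2 := length_le_wl D (wd y)
      have h3 := letter_le_wl D (wd y) p hp
      unfold Lf at h
      refine ⟨by show j < r + 1; omega, mem_univ _, D.mem_ball _ _ _ (by show D.ℓ p.1 p.2 ≤ r; omega)⟩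

end Pool.Agent.H977_rd
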