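import Mathlib
import Pool.Agent.H977_rd.Words

set_option autoImplicit false
open Finset Monoid Monoid.CoprodI

namespace Pool.Agent.H977_rd

/-- the factor group -/
abbrev AA : Type := Multiplicative (Fin 6 → ℤ)

/-- the free product of two copies of `ℤ^6` -/
abbrev Gm : Type := CoprodI (fun _ : Bool => AA)

def ell (m : AA) : ℕ := univ.sup (fun j => (Multiplicative.toAdd m j).natAbs)

noncomputable def ballA (r : ℕ) : Finset AA :=
  (Fintype.piFinset (fun _ : Fin 6 => Icc (-(r : ℤ)) r)).image Multiplicative.ofAdd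

lemma ell_le_iff (m : AA) (r : ℕ) : ell m ≤ r ↔ ∀ j, (Multiplicative.toAdd m j).natAbs ≤ r := by
  unfold ell
  rw [Finset.sup_le_iff]
  simp

noncomputable def DD : FL (fun _ : Bool => AA) where
  ℓ _ m := ell m
  ball _ r := ballA r
  V r := (2 * r + 1) ^ 6
  one _ := by
    have : ell (1 : AA) ≤ 0 := by
      rw [ell_le_iff]
      intro j
      simp
    omega
  pos _ m hm := by
    by_contra hcon
    have h0 : ell m ≤ 0 := by omega
    rw [ell_le_iff] at h0
    apply hm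
    have : Multiplicative.toAdd m = 0 := by
      ext j
      have := h0 j
      simp only [Pi.zero_apply]
      omega
    exact this
  mul _ m m' := by
    rw [ell_le_iff]
    intro j
    have h1 := (ell_le_iff m (ell m)).1 le_rfl j
    have h2 := (ell_le_iff m' (ell m')).1 le_rfl j
    rw [toAdd_mul, Pi.add_apply]
    have h3 := Int.natAbs_add_le (Multiplicative.toAdd m j) (Multiplicative.toAdd m' j)
    omega
  mem_ball _ r m hm := by
    rw [ell_le_iff] at hm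
    unfold ballA
    rw [mem_image]
    refine ⟨Multiplicative.toAdd m, ?_, rfl⟩
    rw [Fintype.mem_piFinset]
    intro j
    have := hm j
    rw [mem_Icc]
    omega
  card_ball _ r := by
    unfold ballA
    refine (card_image_le).trans ?_
    rw [Fintype.card_piFinset]
    simp only [Int.card_Icc, prod_const, card_univ, Fintype.card_fin]
    have : ((r : ℤ) + 1 - -(r : ℤ)).toNat = 2 * r + 1 := by omega
    rw [this]

def gen (p : Bool × Fin 6) : Gm :=
  of (M := fun _ : Bool => AA) (i := p.1) (Multiplicative.ofAdd (Pi.single p.2 (1 : ℤ)))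

noncomputable def SS : Finset Gm := univ.image gen

lemma closure_SS : Subgroup.closure (SS : Set Gm) = ⊤ := by
  rw [Subgroup.eq_top_iff']
  intro x
  induction x using CoprodI.induction_on with
  | one => exact one_mem _
  | mul x y hx hy => exact mul_mem hx hy
  | of i m =>
    have hgen : ∀ j : Fin 6, of (M := fun _ : Bool => AA) (i := i)
        (Multiplicative.ofAdd (Pi.single j (1 : ℤ))) ∈ Subgroup.closure (SS : Set Gm) := by
      intro j
      apply Subgroup.subset_closure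
      unfold SS
      rw [coe_image]
      exact ⟨(i, j), by simp, rfl⟩
    have hm : m = ∏ j : Fin 6, (Multiplicative.ofAdd (Pi.single j (1 : ℤ)) : AA) ^
        (Multiplicative.toAdd m j) := by
      apply Multiplicative.toAdd.injective
      rw [toAdd_prod]
      have h1 : ∀ j : Fin 6, Multiplicative.toAdd ((Multiplicative.ofAdd (Pi.single j (1 : ℤ)) : AA) ^
        (Multiplicative.toAdd m j)) = Pi.single j (Multiplicative.toAdd m j) := by
        intro j
        rw [toAdd_zpow, toAdd_ofAdd]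
        ext k
        simp only [Pi.smul_apply, smul_eq_mul]
        by_cases hk : k = j
        · subst hk; simp
        · simp [hk]
      simp_rw [h1]
      rw [Finset.univ_sum_single]
    have hmem : m ∈ (Subgroup.closure (SS : Set Gm)).comap
        (of (M := fun _ : Bool => AA) (i := i)) := by
      rw [hm]
      refine Subgroup.prod_mem _ ?_
      intro j _
      refine Subgroup.zpow_mem _ ?_ _
      exact hgen j
    exact hmem

lemma SS_letter (y : Gm) (hy : y ∈ SS ∨ y⁻¹ ∈ SS) :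
    ∃ i, ∃ m : AA, y = of (M := fun _ : Bool => AA) (i := i) m ∧ DD.ℓ i m ≤ 1 := by
  have key : ∀ j : Fin 6, ell (Multiplicative.ofAdd (Pi.single j (1 : ℤ))) ≤ 1 := by
    intro j
    rw [ell_le_iff]
    intro k
    rw [toAdd_ofAdd]
    by_cases hk : k = j
    · subst hk; simp
    · simp [hk]
  have key2 : ∀ j : Fin 6, ell (Multiplicative.ofAdd (Pi.single j (1 : ℤ)))⁻¹ ≤ 1 := by
    intro j
    rw [ell_le_iff]
    intro k
    rw [toAdd_inv, toAdd_ofAdd]
    by_cases hk : k = j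
    · subst hk; simp
    · simp [hk]
  rcases hy with h | h
  · unfold SS at h
    rw [mem_image] at h
    obtain ⟨p, _, rfl⟩ := h
    exact ⟨p.1, _, rfl, key p.2⟩
  · unfold SS at h
    rw [mem_image] at h
    obtain ⟨p, _, hp⟩ := h
    refine ⟨p.1, (Multiplicative.ofAdd (Pi.single p.2 (1 : ℤ)))⁻¹, ?_, key2 p.2⟩
    rw [map_inv]
    rw [← inv_inv y, ← hp]
    rfl

/-- word length as in the problem -/
noncomputable def wlen (x : Gm) : ℕ := sInf {n : ℕ | ∃ l : List Gm, l.length = n ∧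
  (∀ y ∈ l, y ∈ SS ∨ y⁻¹ ∈ SS) ∧ l.prod = x}

lemma Lf_le_wlen (x : Gm) : Lf DD x ≤ wlen x := by
  have hne : {n : ℕ | ∃ l : List Gm, l.length = n ∧
      (∀ y ∈ l, y ∈ SS ∨ y⁻¹ ∈ SS) ∧ l.prod = x}.Nonempty := by
    have hx : x ∈ Subgroup.closure (SS : Set Gm) := by rw [closure_SS]; exact Subgroup.mem_top x
    have hx' : x ∈ (Subgroup.closure (SS : Set Gm)).toSubmonoid := hx
    rw [Subgroup.closure_toSubmonoid] at hx'
    obtain ⟨l, hl, hp⟩ := Submonoid.exists_list_of_mem_closure hx'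
    refine ⟨l.length, l, rfl, fun y hy => ?_, hp⟩
    have := hl y hy
    simpa using this
  obtain ⟨l, hlen, hl, hp⟩ := Nat.sInf_mem hne
  unfold wlen
  rw [← hlen, ← hp]
  exact Lf_prod_le DD l (fun y hy => SS_letter y (hl y hy))

lemma PP_bound (r : ℕ) : (1 + (r : ℝ)) ^ 2 * (PP DD r : ℝ) ^ 3 ≤ 130 ^ 3 * (1 + (r : ℝ)) ^ (2 * 12) := by
  have h1 : (PP DD r : ℝ) ≤ 130 * (1 + (r : ℝ)) ^ 7 := by
    unfold PP DD
    simp only [Fintype.card_bool]
    push_cast
    have hr : (0:ℝ) ≤ r := Nat.cast_nonneg _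
    have h2 : (2 * (r:ℝ) + 1) ^ 6 ≤ 64 * (1 + (r:ℝ)) ^ 6 := by
      calc (2 * (r:ℝ) + 1) ^ 6 ≤ (2 * (1 + (r:ℝ))) ^ 6 := by gcongr; linarith
        _ = _ := by ring
    have h3 : (1:ℝ) ≤ (1 + (r:ℝ)) ^ 7 := one_le_pow₀ (by linarith)
    have h4 : (1 + (r:ℝ)) ≤ (1 + (r:ℝ)) ^ 7 := le_self_pow₀ (by linarith) (by norm_num)
    calc 1 + ((r:ℝ) + 1) * (1 + 2 * (2 * (r:ℝ) + 1) ^ 6)
        ≤ 1 + ((r:ℝ) + 1) * (1 + 2 * (64 * (1 + (r:ℝ)) ^ 6)) := by gcongr
      _ = 1 + (1 + (r:ℝ)) + 128 * (1 + (r:ℝ)) ^ 7 := by ring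
      _ ≤ 130 * (1 + (r : ℝ)) ^ 7 := by linarith
  have hr : (1:ℝ) ≤ 1 + (r:ℝ) := by linarith [(Nat.cast_nonneg r : (0:ℝ) ≤ (r:ℝ))]
  calc (1 + (r : ℝ)) ^ 2 * (PP DD r : ℝ) ^ 3
      ≤ (1 + (r : ℝ)) ^ 2 * (130 * (1 + (r : ℝ)) ^ 7) ^ 3 := by gcongr
    _ = 130 ^ 3 * (1 + (r:ℝ)) ^ 23 := by ring
    _ ≤ 130 ^ 3 * (1 + (r : ℝ)) ^ (2 * 12) := by
        have : (1 + (r:ℝ)) ^ 23 ≤ (1 + (r : ℝ)) ^ (2 * 12) := pow_le_pow_right₀ hr (by norm_num)
        linarith

theorem rd_Gm : ∃ S : Finset Gm, Subgroup.closure (S : Set Gm) = ⊤ ∧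
    ∃ (C : ℝ) (s : ℕ), ∀ f g : Gm →₀ ℝ, ∀ T : Finset Gm,
      ∑ x ∈ T, (f.sum (fun y a => a * g (y⁻¹ * x))) ^ 2 ≤
        C * (f.sum (fun x a => a ^ 2 *
              (1 + ((sInf {n : ℕ | ∃ l : List Gm, l.length = n ∧
                  (∀ y ∈ l, y ∈ S ∨ y⁻¹ ∈ S) ∧ l.prod = x} : ℕ) : ℝ)) ^ (2 * s)))
          * g.sum (fun _ a => a ^ 2) := by
  refine ⟨SS, closure_SS, ZZ * 130 ^ 3, 12, ?_⟩
  intro f g T
  refine (rd_of_centroid (centroid DD) (by norm_num) PP_bound f g T).trans ?_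
  have hg : 0 ≤ g.sum (fun _ a => a ^ 2) := Finsupp.sum_nonneg (fun _ _ => sq_nonneg _)
  refine mul_le_mul_of_nonneg_right ?_ hg
  refine mul_le_mul_of_nonneg_left ?_ (mul_nonneg ZZ_nonneg (by norm_num))
  unfold Finsupp.sum
  refine Finset.sum_le_sum ?_
  intro x _
  refine mul_le_mul_of_nonneg_left ?_ (sq_nonneg _)
  have h1 : (Lf DD x : ℝ) ≤ (wlen x : ℝ) := by exact_mod_cast Lf_le_wlen x
  have h2 : (0:ℝ) ≤ (Lf DD x : ℝ) := Nat.cast_nonneg _
  apply pow_le_pow_left₀ (by linarith)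
  have h3 : ((wlen x : ℕ) : ℝ) = ((sInf {n : ℕ | ∃ l : List Gm, l.length = n ∧
                  (∀ y ∈ l, y ∈ SS ∨ y⁻¹ ∈ SS) ∧ l.prod = x} : ℕ) : ℝ) := rfl
  rw [← h3]
  linarith

end Pool.Agent.H977_rd
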