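import Mathlib
import Pool.Agent.H977_rd.RDGroup
import Pool.Agent.H977_rd.Oper

set_option autoImplicit false
open Finset Monoid Monoid.CoprodI

namespace Pool.Agent.H977_rd

section general

variable {ι : Type*} [DecidableEq ι] {G : ι → Type*} [∀ i, Group (G i)] [∀ i, DecidableEq (G i)]

/-- product function on reduced words -/
noncomputable def gw (F : ∀ i, G i → ℝ) (w : Word G) : ℝ :=
  (w.toList.map (fun p => F p.1 p.2)).prod

lemma gw_cons (F : ∀ i, G i → ℝ) {i : ι} (m : G i) (w : Word G) (h1) (h2) :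
    gw F (Word.cons m w h1 h2) = F i m * gw F w := by
  unfold gw
  simp [Word.cons]

lemma gw_rcons {F : ∀ i, G i → ℝ} (hF : ∀ i, F i 1 = 1) {i : ι} (p : Word.Pair G i) :
    gw F (Word.rcons p) = F i p.head * gw F p.tail := by
  unfold Word.rcons
  split_ifs with h
  · rw [h, hF, one_mul]
  · exact gw_cons F _ _ _ _

lemma gw_empty (F : ∀ i, G i → ℝ) : gw F (Word.empty : Word G) = 1 := rfl

lemma gw_nonneg {F : ∀ i, G i → ℝ} (hF : ∀ i m, 0 ≤ F i m) (w : Word G) : 0 ≤ gw F w := by
  induction w using Word.consRecOn with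
  | empty => rw [gw_empty]; exact zero_le_one
  | cons i m w h1 h2 ih => rw [gw_cons]; exact mul_nonneg (hF i m) ih

lemma gw_mono {F F' : ∀ i, G i → ℝ} (hF : ∀ i m, 0 ≤ F i m) (hFF : ∀ i m, F i m ≤ F' i m)
    (w : Word G) : gw F w ≤ gw F' w := by
  induction w using Word.consRecOn with
  | empty => rw [gw_empty, gw_empty]
  | cons i m w h1 h2 ih =>
    rw [gw_cons, gw_cons]
    exact mul_le_mul (hFF i m) ih (gw_nonneg hF w) ((hF i m).trans (hFF i m))

lemma gw_split {F : ∀ i, G i → ℝ} (hF : ∀ i, F i 1 = 1) (i : ι) (w : Word G) :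
    gw F w = F i (Word.equivPair i w).head * gw F (Word.equivPair i w).tail := by
  rw [← gw_rcons hF, ← Word.equivPair_symm, Equiv.symm_apply_apply]

lemma gw_smul {F : ∀ i, G i → ℝ} (hF : ∀ i, F i 1 = 1) (i : ι) (a : G i) (x : CoprodI G) :
    gw F (wd ((of a)⁻¹ * x)) = F i (a⁻¹ * (Word.equivPair i (wd x)).head)
      * gw F (Word.equivPair i (wd x)).tail := by
  rw [wd_smul, ← map_inv, Word.of_smul_def, gw_rcons hF]

lemma sum_factor {F : ∀ i, G i → ℝ} (hF : ∀ i, F i 1 = 1) (i : ι) (νi : G i →₀ ℝ) {gi si K : ℝ}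
    (hgi : gi ≠ 0)
    (heq : ∀ h : G i, νi.sum (fun a w => w * F i (a⁻¹ * h)) = (F i h - if h = 1 then 1 / gi else 0) / si)
    (x : CoprodI G) :
    νi.sum (fun a w => w * (K * gw F (wd ((of a)⁻¹ * x))))
      = K * gw F (wd x) * (1 - if (Word.equivPair i (wd x)).head = 1 then 1 / gi else 0) / si := by
  have h1 : νi.sum (fun a w => w * (K * gw F (wd ((of a)⁻¹ * x))))
      = K * gw F (Word.equivPair i (wd x)).tail *
        νi.sum (fun a w => w * F i (a⁻¹ * (Word.equivPair i (wd x)).head)) := by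
    unfold Finsupp.sum
    rw [Finset.mul_sum]
    refine Finset.sum_congr rfl ?_
    intro a _
    dsimp only
    rw [gw_smul hF]
    ring
  rw [h1, heq, gw_split hF i (wd x)]
  by_cases hh : (Word.equivPair i (wd x)).head = 1
  · simp only [hh, hF, if_true]
    ring
  · simp only [hh, if_false]
    ring

lemma equivPair_cons_same {i : ι} (m : G i) (w : Word G) (h1) (h2) :
    (Word.equivPair i (Word.cons m w h1 h2)).head = m := by
  have : Word.cons m w h1 h2 = Word.rcons ⟨m, w, h1⟩ := by
    unfold Word.rcons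
    rw [dif_neg h2]
  rw [this, ← Word.equivPair_symm, Equiv.apply_symm_apply]

lemma equivPair_cons_other {i : ι} (m : G i) (w : Word G) (h1) (h2) (j : ι) (hj : i ≠ j) :
    (Word.equivPair j (Word.cons m w h1 h2)).head = 1 := by
  rw [Word.equivPair_eq_of_fstIdx_ne]
  rw [Word.fstIdx_cons]
  intro hcon
  exact hj (Option.some.inj hcon)

end general

/-- the step distribution on the free product -/
noncomputable def nuG (α β : ℝ) (ν1 ν2 : AA →₀ ℝ) : Gm →₀ ℝ :=
  α • ν1.mapDomain (of (M := fun _ : Bool => AA) (i := true))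
    + β • ν2.mapDomain (of (M := fun _ : Bool => AA) (i := false))

lemma Mop_nuG (α β : ℝ) (ν1 ν2 : AA →₀ ℝ) (h : Gm → ℝ) (x : Gm) :
    Mop (nuG α β ν1 ν2) h x
      = α * ν1.sum (fun a w => w * h ((of (M := fun _ : Bool => AA) (i := true) a)⁻¹ * x))
        + β * ν2.sum (fun a w => w * h ((of (M := fun _ : Bool => AA) (i := false) a)⁻¹ * x)) := by
  unfold Mop nuG
  rw [Finsupp.sum_add_index' (by intro a; ring) (by intro a b c; ring)]
  rw [Finsupp.sum_smul_index' (by intro a; ring), Finsupp.sum_smul_index' (by intro a; ring)]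
  congr 1
  · have : ∀ ν : Gm →₀ ℝ, ν.sum (fun i c => (α • c) * h (i⁻¹ * x))
        = α * ν.sum (fun i c => c * h (i⁻¹ * x)) := by
      intro ν
      unfold Finsupp.sum
      rw [Finset.mul_sum]
      refine Finset.sum_congr rfl ?_
      intro y _
      dsimp only
      rw [smul_eq_mul]
      ring
    rw [this, Finsupp.sum_mapDomain_index (by intro a; ring) (by intro a b c; ring)]
  · have : ∀ ν : Gm →₀ ℝ, ν.sum (fun i c => (β • c) * h (i⁻¹ * x))
        = β * ν.sum (fun i c => c * h (i⁻¹ * x)) := by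
      intro ν
      unfold Finsupp.sum
      rw [Finset.mul_sum]
      refine Finset.sum_congr rfl ?_
      intro y _
      dsimp only
      rw [smul_eq_mul]
      ring
    rw [this, Finsupp.sum_mapDomain_index (by intro a; ring) (by intro a b c; ring)]

lemma heads (x : Gm) (hx : x ≠ 1) :
    ((Word.equivPair (M := fun _ : Bool => AA) true (wd x)).head = 1 ∧
      (Word.equivPair (M := fun _ : Bool => AA) false (wd x)).head ≠ 1) ∨
    ((Word.equivPair (M := fun _ : Bool => AA) true (wd x)).head ≠ 1 ∧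
      (Word.equivPair (M := fun _ : Bool => AA) false (wd x)).head = 1) := by
  have hne : wd x ≠ Word.empty := by
    intro h
    apply hx
    have := prod_wd x
    rw [h, Word.prod_empty] at this
    exact this.symm
  generalize wd x = w at hne
  induction w using Word.consRecOn with
  | empty => exact absurd rfl hne
  | cons i m w h1 h2 ih =>
    have hsame := equivPair_cons_same (G := fun _ : Bool => AA) m w h1 h2
    have hother := equivPair_cons_other (G := fun _ : Bool => AA) m w h1 h2
    cases i with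
    | true =>
      right
      exact ⟨by rw [hsame]; exact h2, hother false (by decide)⟩
    | false =>
      left
      exact ⟨hother true (by decide), by rw [hsame]; exact h2⟩

/-- the explicit solution of the Green equation -/
theorem solution {F : ∀ _ : Bool, AA → ℝ} (hF : ∀ i, F i 1 = 1) {ν1 ν2 : AA →₀ ℝ}
    {α β g1 g2 s1 s2 T : ℝ} (hg1 : g1 ≠ 0) (hg2 : g2 ≠ 0) (hT : T ≠ 0)
    (hG : g1 + g2 - 1 ≠ 0)
    (h1 : ∀ h : AA, ν1.sum (fun a w => w * F true (a⁻¹ * h))
      = (F true h - if h = 1 then 1 / g1 else 0) / s1)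
    (h2 : ∀ h : AA, ν2.sum (fun a w => w * F false (a⁻¹ * h))
      = (F false h - if h = 1 then 1 / g2 else 0) / s2)
    (hα : α / s1 = g1 / T) (hβ : β / s2 = g2 / T) (x : Gm) :
    (g1 + g2 - 1) * gw F (wd x)
      = dl x + (T / (g1 + g2 - 1)) *
        Mop (nuG α β ν1 ν2) (fun y => (g1 + g2 - 1) * gw F (wd y)) x := by
  rw [Mop_nuG]
  have e1 := sum_factor (G := fun _ : Bool => AA) (F := F) hF true ν1 (K := g1 + g2 - 1) hg1 h1 x
  have e2 := sum_factor (G := fun _ : Bool => AA) (F := F) hF false ν2 (K := g1 + g2 - 1) hg2 h2 x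
  rw [e1, e2]
  have hα' : ∀ y : ℝ, α * (y / s1) = (g1 / T) * y := by
    intro y
    rw [← hα]; ring
  have hβ' : ∀ y : ℝ, β * (y / s2) = (g2 / T) * y := by
    intro y
    rw [← hβ]; ring
  rw [hα', hβ']
  by_cases hx : x = 1
  · subst hx
    have hw : wd (1 : Gm) = Word.empty := by
      unfold wd
      rw [one_smul]
    have hh : ∀ i : Bool, (Word.equivPair (M := fun _ : Bool => AA) i (wd (1 : Gm))).head = 1 := by
      intro i
      rw [hw, Word.equivPair_eq_of_fstIdx_ne]
      simp [Word.fstIdx, Word.empty]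
    rw [hh, hh, if_pos rfl, if_pos rfl, hw, gw_empty]
    have hd : dl (1 : Gm) = 1 := by simp [dl]
    rw [hd]
    field_simp
    ring
  · have hd : dl x = 0 := by simp [dl, hx]
    rw [hd]
    rcases heads x hx with ⟨ha, hb⟩ | ⟨ha, hb⟩
    · rw [if_pos ha, if_neg hb]
      field_simp
      ring
    · rw [if_neg ha, if_pos hb]
      field_simp
      ring

end Pool.Agent.H977_rd
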