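import Mathlib
import Pool.Agent.H977_rd.WordSol

set_option autoImplicit false
open Finset Filter Topology

namespace Pool.Agent.H977_rd

/-- binomial coefficient with integer lower index -/
def chooseZ (N : ℕ) (m : ℤ) : ℕ := if 0 ≤ m then N.choose m.toNat else 0

lemma pascalZ (N : ℕ) (m : ℤ) : chooseZ (N + 1) m = chooseZ N m + chooseZ N (m - 1) := by
  unfold chooseZ
  rcases lt_trichotomy m 0 with h | h | h
  · rw [if_neg (by omega), if_neg (by omega), if_neg (by omega)]
  · subst h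
    simp
  · rw [if_pos (by omega), if_pos (by omega), if_pos (by omega)]
    obtain ⟨k, rfl⟩ : ∃ k : ℕ, m = k + 1 := ⟨(m - 1).toNat, by omega⟩
    have h1 : ((k : ℤ) + 1).toNat = k + 1 := by omega
    have h2 : ((k : ℤ) + 1 - 1).toNat = k := by omega
    rw [h1, h2, Nat.choose_succ_succ, add_comm]

/-- one dimensional lazy walk kernel -/
noncomputable def pz (n : ℕ) (k : ℤ) : ℝ := (chooseZ (2 * n) (n + k) : ℝ) / 4 ^ n

lemma pz_succ (n : ℕ) (k : ℤ) :
    pz (n + 1) k = (pz n (k + 1) + 2 * pz n k + pz n (k - 1)) / 4 := by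
  unfold pz
  have e : 2 * (n + 1) = 2 * n + 1 + 1 := by ring
  have h1 : chooseZ (2 * (n + 1)) (((n + 1 : ℕ) : ℤ) + k)
      = chooseZ (2 * n) (n + (k + 1)) + 2 * chooseZ (2 * n) (n + k) + chooseZ (2 * n) (n + (k - 1)) := by
    rw [e, pascalZ, pascalZ, pascalZ]
    have e1 : ((n + 1 : ℕ) : ℤ) + k = n + (k + 1) := by push_cast; ring
    have e2 : (n : ℤ) + (k + 1) - 1 = n + k := by ring
    have e3 : (n : ℤ) + k - 1 = n + (k - 1) := by ring
    rw [e1, e2, e3]
    ring
  rw [h1, pow_succ]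
  push_cast
  field_simp

lemma pz_zero (k : ℤ) : pz 0 k = if k = 0 then 1 else 0 := by
  unfold pz chooseZ
  simp only [Nat.mul_zero, Nat.cast_zero, zero_add, pow_zero, div_one]
  rcases lt_trichotomy k 0 with h | h | h
  · rw [if_neg (by omega), if_neg (by omega)]; simp
  · subst h; simp
  · rw [if_pos (by omega), if_neg (by omega)]
    obtain ⟨j, rfl⟩ : ∃ j : ℕ, k = j + 1 := ⟨(k - 1).toNat, by omega⟩
    have h1 : ((j : ℤ) + 1).toNat = j + 1 := by omega
    rw [h1]
    simp

lemma pz_nonneg (n : ℕ) (k : ℤ) : 0 ≤ pz n k := by unfold pz; positivity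

noncomputable def cn (n : ℕ) : ℝ := (Nat.centralBinom n : ℝ) / 4 ^ n

lemma pz_le (n : ℕ) (k : ℤ) : pz n k ≤ cn n := by
  unfold pz cn chooseZ
  split_ifs with h
  · have := Nat.choose_le_centralBinom ((n : ℤ) + k).toNat n
    gcongr
  · simp only [Nat.cast_zero, zero_div]
    positivity

lemma pz_at_zero (n : ℕ) : pz n 0 = cn n := by
  unfold pz cn chooseZ
  rw [if_pos (by omega)]
  have : ((n : ℤ) + 0).toNat = n := by omega
  rw [this, Nat.centralBinom_eq_two_mul_choose]

/-- step law in one coordinate -/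
noncomputable def qz (k : ℤ) : ℝ := if k = 0 then 1 / 2 else if k = 1 ∨ k = -1 then 1 / 4 else 0

lemma qz_nonneg (k : ℤ) : 0 ≤ qz k := by unfold qz; split_ifs <;> norm_num

lemma qz_neg (k : ℤ) : qz (-k) = qz k := by
  unfold qz
  by_cases h : k = 0
  · subst h; simp
  · rw [if_neg h, if_neg (by omega)]
    by_cases h2 : k = 1 ∨ k = -1
    · rw [if_pos h2, if_pos (by omega)]
    · rw [if_neg h2, if_neg (by omega)]

lemma sum_qz (f : ℤ → ℝ) : ∑ k ∈ Icc (-1 : ℤ) 1, qz k * f k = (f (-1) + 2 * f 0 + f 1) / 4 := by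
  have : Icc (-1 : ℤ) 1 = {-1, 0, 1} := by decide
  rw [this]
  rw [Finset.sum_insert (by decide), Finset.sum_insert (by decide), Finset.sum_singleton]
  unfold qz
  norm_num
  ring

/-- step law on `ℤ^6` -/
noncomputable def nuA : AA →₀ ℝ :=
  Finsupp.onFinset (ballA 1) (fun x => ∏ j, qz (Multiplicative.toAdd x j)) (by
    intro x hx
    rw [Finset.prod_ne_zero_iff] at hx
    unfold ballA
    rw [mem_image]
    refine ⟨Multiplicative.toAdd x, ?_, rfl⟩
    rw [Fintype.mem_piFinset]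
    intro j
    have := hx j (mem_univ _)
    unfold qz at this
    rw [mem_Icc]
    by_contra hcon
    apply this
    rw [if_neg (by push_cast at hcon; omega), if_neg (by push_cast at hcon; omega)])

lemma nuA_sum (f : AA → ℝ) : nuA.sum (fun a w => w * f a)
    = ∑ v ∈ Fintype.piFinset (fun _ : Fin 6 => Icc (-1 : ℤ) 1),
        (∏ j, qz (v j)) * f (Multiplicative.ofAdd v) := by
  unfold nuA
  rw [Finsupp.onFinset_sum _ (by intro a; ring)]
  unfold ballA
  rw [Finset.sum_image (by intro a _ b _ h; exact h)]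
  rfl

lemma nuA_prod (p : ℤ → ℝ) (h : AA) :
    nuA.sum (fun a w => w * ∏ j, p (Multiplicative.toAdd (a⁻¹ * h) j))
      = ∏ j, ∑ k ∈ Icc (-1 : ℤ) 1, qz k * p (Multiplicative.toAdd h j - k) := by
  rw [nuA_sum (fun a => ∏ j, p (Multiplicative.toAdd (a⁻¹ * h) j)), Finset.prod_univ_sum]
  refine Finset.sum_congr rfl ?_
  intro v _
  rw [← Finset.prod_mul_distrib]
  refine Finset.prod_congr rfl ?_
  intro j _
  congr 2
  rw [toAdd_mul, toAdd_inv, toAdd_ofAdd, Pi.add_apply, Pi.neg_apply]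
  ring

/-- n-step kernel -/
noncomputable def PA (n : ℕ) (h : AA) : ℝ := ∏ j, pz n (Multiplicative.toAdd h j)

lemma PA_succ (n : ℕ) (h : AA) : PA (n + 1) h = nuA.sum (fun a w => w * PA n (a⁻¹ * h)) := by
  unfold PA
  rw [nuA_prod (pz n) h]
  refine Finset.prod_congr rfl ?_
  intro j _
  rw [sum_qz, pz_succ]
  congr 2
  · congr 2
    ring_nf

lemma PA_zero (h : AA) : PA 0 h = if h = 1 then 1 else 0 := by
  unfold PA
  simp_rw [pz_zero]
  by_cases hh : h = 1
  · subst hh
    simp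
  · rw [if_neg hh]
    have : ∃ j, Multiplicative.toAdd h j ≠ 0 := by
      by_contra hcon
      push Not at hcon
      apply hh
      have : Multiplicative.toAdd h = 0 := by ext j; exact hcon j
      exact this
    obtain ⟨j, hj⟩ := this
    exact Finset.prod_eq_zero (mem_univ j) (by rw [if_neg hj])

lemma PA_nonneg (n : ℕ) (h : AA) : 0 ≤ PA n h := Finset.prod_nonneg (fun _ _ => pz_nonneg _ _)

noncomputable def un (n : ℕ) : ℝ := cn n ^ 6

lemma PA_le (n : ℕ) (h : AA) : PA n h ≤ un n := by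
  unfold PA un
  calc ∏ j, pz n (Multiplicative.toAdd h j) ≤ ∏ _j : Fin 6, cn n :=
        Finset.prod_le_prod (fun _ _ => pz_nonneg _ _) (fun _ _ => pz_le _ _)
    _ = cn n ^ 6 := by simp

lemma PA_one (n : ℕ) : PA n 1 = un n := by
  unfold PA un
  simp only [toAdd_one, Pi.zero_apply, pz_at_zero]
  simp

lemma cn_pos (n : ℕ) : 0 < cn n := by
  unfold cn
  have := Nat.centralBinom_pos n
  positivity

lemma cn_succ (n : ℕ) : cn (n + 1) = cn n * ((2 * n + 1) / (2 * n + 2)) := by
  unfold cn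
  have h := Nat.succ_mul_centralBinom_succ n
  have h' : ((n:ℝ) + 1) * (Nat.centralBinom (n + 1) : ℝ) = 2 * (2 * n + 1) * Nat.centralBinom n := by
    exact_mod_cast h
  have h2 : (Nat.centralBinom (n + 1) : ℝ) = 2 * (2 * n + 1) * Nat.centralBinom n / (n + 1) := by
    field_simp
    linarith
  rw [h2, pow_succ]
  field_simp
  ring

lemma cn_sq_le (n : ℕ) : cn n ^ 2 ≤ 1 / (2 * n + 1) := by
  induction n with
  | zero => simp [cn]
  | succ n ih =>
    rw [cn_succ, mul_pow]
    calc cn n ^ 2 * ((2 * n + 1) / (2 * n + 2)) ^ 2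
        ≤ 1 / (2 * n + 1) * ((2 * n + 1) / (2 * n + 2)) ^ 2 := by gcongr
      _ ≤ 1 / (2 * ((n + 1 : ℕ) : ℝ) + 1) := by
          push_cast
          rw [div_pow, div_mul_div_comm, div_le_div_iff₀ (by positivity) (by positivity)]
          have hn : (0:ℝ) ≤ n := Nat.cast_nonneg _
          nlinarith [mul_nonneg hn hn, mul_nonneg (mul_nonneg hn hn) hn]

lemma cn_sq_ge (n : ℕ) (hn : 1 ≤ n) : 1 / (4 * (n:ℝ)) ≤ cn n ^ 2 := by
  induction n, hn using Nat.le_induction with
  | base => simp [cn, Nat.centralBinom]; norm_num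
  | succ n hn ih =>
    have hn0 : (0:ℝ) < n := by exact_mod_cast hn
    rw [cn_succ, mul_pow]
    calc 1 / (4 * ((n + 1 : ℕ) : ℝ)) ≤ 1 / (4 * (n:ℝ)) * ((2 * n + 1) / (2 * n + 2)) ^ 2 := by
          push_cast
          rw [div_pow, div_mul_div_comm, div_le_div_iff₀ (by positivity) (by positivity)]
          nlinarith [mul_pos hn0 hn0, mul_pos (mul_pos hn0 hn0) hn0]
      _ ≤ cn n ^ 2 * ((2 * n + 1) / (2 * n + 2)) ^ 2 := by gcongr

lemma un_pos (n : ℕ) : 0 < un n := by unfold un; have := cn_pos n; positivity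

lemma un_le (n : ℕ) : un n ≤ 1 / ((n:ℝ) + 1) ^ 3 := by
  have h1 : un n = (cn n ^ 2) ^ 3 := by unfold un; ring
  rw [h1]
  calc (cn n ^ 2) ^ 3 ≤ (1 / (2 * n + 1)) ^ 3 := by
        have := cn_sq_le n
        gcongr
    _ ≤ (1 / ((n:ℝ) + 1)) ^ 3 := by
        have hn : (0:ℝ) ≤ n := Nat.cast_nonneg _
        gcongr
        linarith
    _ = _ := by rw [one_div_pow]

lemma un_ge (n : ℕ) (hn : 1 ≤ n) : 1 / (64 * (n:ℝ) ^ 3) ≤ un n := by
  have h1 : un n = (cn n ^ 2) ^ 3 := by unfold un; ring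
  rw [h1]
  calc 1 / (64 * (n:ℝ) ^ 3) = (1 / (4 * (n:ℝ))) ^ 3 := by
        rw [div_pow, mul_pow]; norm_num
    _ ≤ (cn n ^ 2) ^ 3 := by
        have := cn_sq_ge n hn
        gcongr

lemma summable_inv_cube : Summable (fun n : ℕ => 1 / ((n:ℝ) + 1) ^ 3) := by
  have := (summable_nat_add_iff 1).2 (Real.summable_one_div_nat_pow.2 (by norm_num : 1 < 3))
  refine this.congr ?_
  intro n
  push_cast
  rfl

lemma summable_un : Summable un :=
  Summable.of_nonneg_of_le (fun n => (un_pos n).le) un_le summable_inv_cube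

lemma summable_PA {s : ℝ} (hs0 : 0 ≤ s) (hs1 : s ≤ 1) (h : AA) :
    Summable (fun n => s ^ n * PA n h) := by
  refine Summable.of_nonneg_of_le (fun n => mul_nonneg (pow_nonneg hs0 n) (PA_nonneg n h)) ?_
    summable_un
  intro n
  have h1 : s ^ n ≤ 1 := pow_le_one₀ hs0 hs1
  have h2 := PA_le n h
  have h3 := PA_nonneg n h
  have h4 : 0 ≤ s ^ n := pow_nonneg hs0 n
  nlinarith

/-- Green function of the factor -/
noncomputable def GA (s : ℝ) (h : AA) : ℝ := ∑' n, s ^ n * PA n h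

noncomputable def G1 (s : ℝ) : ℝ := ∑' n, s ^ n * un n

lemma GA_one (s : ℝ) : GA s 1 = G1 s := by
  unfold GA G1
  simp_rw [PA_one]

lemma GA_nonneg {s : ℝ} (hs0 : 0 ≤ s) (h : AA) : 0 ≤ GA s h :=
  tsum_nonneg (fun n => mul_nonneg (pow_nonneg hs0 n) (PA_nonneg n h))

lemma summable_G1 {s : ℝ} (hs0 : 0 ≤ s) (hs1 : s ≤ 1) : Summable (fun n => s ^ n * un n) := by
  have := summable_PA hs0 hs1 1
  simpa [PA_one] using this

lemma un_zero : un 0 = 1 := by simp [un, cn]

lemma G1_ge_one {s : ℝ} (hs0 : 0 ≤ s) (hs1 : s ≤ 1) : 1 ≤ G1 s := by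
  have := (summable_G1 hs0 hs1).le_tsum 0 (fun n _ => mul_nonneg (pow_nonneg hs0 n) (un_pos n).le)
  simpa [un_zero, G1] using this

lemma GA_le {s : ℝ} (hs0 : 0 ≤ s) (hs1 : s ≤ 1) (h : AA) : GA s h ≤ G1 s := by
  unfold GA G1
  refine (summable_PA hs0 hs1 h).tsum_le_tsum ?_ (summable_G1 hs0 hs1)
  intro n
  exact mul_le_mul_of_nonneg_left (PA_le n h) (pow_nonneg hs0 n)

lemma GA_eq {s : ℝ} (hs0 : 0 < s) (hs1 : s ≤ 1) (h : AA) :
    nuA.sum (fun a w => w * GA s (a⁻¹ * h)) = (GA s h - if h = 1 then 1 else 0) / s := by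
  have h1 : nuA.sum (fun a w => w * GA s (a⁻¹ * h)) = ∑' n, s ^ n * PA (n + 1) h := by
    unfold Finsupp.sum GA
    simp_rw [← tsum_mul_left]
    rw [← Summable.tsum_finsetSum]
    · refine tsum_congr ?_
      intro n
      rw [PA_succ]
      unfold Finsupp.sum
      rw [Finset.mul_sum]
      refine Finset.sum_congr rfl ?_
      intro a _
      ring
    · intro a _
      exact (summable_PA hs0.le hs1 _).mul_left _
  have h2 : GA s h = (if h = 1 then 1 else 0) + s * ∑' n, s ^ n * PA (n + 1) h := by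
    unfold GA
    rw [(summable_PA hs0.le hs1 h).tsum_eq_zero_add]
    rw [pow_zero, one_mul, PA_zero, ← tsum_mul_left]
    refine congrArg (fun y => (if h = 1 then 1 else 0) + y) (tsum_congr ?_)
    intro n
    rw [pow_succ]
    ring
  rw [h1, h2]
  field_simp
  ring

noncomputable def FA (s : ℝ) (h : AA) : ℝ := GA s h / G1 s

lemma FA_one {s : ℝ} (hs0 : 0 ≤ s) (hs1 : s ≤ 1) : FA s 1 = 1 := by
  unfold FA
  rw [GA_one]
  have h1 := G1_ge_one hs0 hs1
  exact div_self (by linarith)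

lemma FA_nonneg {s : ℝ} (hs0 : 0 ≤ s) (hs1 : s ≤ 1) (h : AA) : 0 ≤ FA s h := by
  unfold FA
  have h1 := G1_ge_one hs0 hs1
  have h2 := GA_nonneg hs0 h
  exact div_nonneg h2 (by linarith)

lemma FA_le_one {s : ℝ} (hs0 : 0 ≤ s) (hs1 : s ≤ 1) (h : AA) : FA s h ≤ 1 := by
  unfold FA
  have h1 := G1_ge_one hs0 hs1
  rw [div_le_one (by linarith)]
  exact GA_le hs0 hs1 h

lemma FA_eq {s : ℝ} (hs0 : 0 < s) (hs1 : s ≤ 1) (h : AA) :
    nuA.sum (fun a w => w * FA s (a⁻¹ * h)) = (FA s h - if h = 1 then 1 / G1 s else 0) / s := by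
  have h1 : nuA.sum (fun a w => w * FA s (a⁻¹ * h))
      = nuA.sum (fun a w => w * GA s (a⁻¹ * h)) / G1 s := by
    unfold Finsupp.sum FA
    rw [Finset.sum_div]
    refine Finset.sum_congr rfl ?_
    intro a _
    ring
  rw [h1, GA_eq hs0 hs1]
  have h2 := G1_ge_one hs0.le hs1
  have h3 : G1 s ≠ 0 := by linarith
  have h4 : s ≠ 0 := hs0.ne'
  unfold FA
  split_ifs
  · field_simp
  · rw [sub_zero, sub_zero, div_div, div_div, mul_comm]

lemma nuA_nonneg (x : AA) : 0 ≤ nuA x := by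
  show 0 ≤ ∏ j, qz (Multiplicative.toAdd x j)
  exact Finset.prod_nonneg (fun _ _ => qz_nonneg _)

lemma nuA_total : nuA.sum (fun _ w => w) = 1 := by
  have h := nuA_prod (fun _ => 1) 1
  simp only [Finset.prod_const_one, mul_one] at h
  rw [h]
  have h2 := sum_qz (fun _ => 1)
  simp only [mul_one] at h2
  rw [h2]
  norm_num

lemma nuA_symm (x : AA) : nuA x⁻¹ = nuA x := by
  show ∏ j, qz (Multiplicative.toAdd x⁻¹ j) = ∏ j, qz (Multiplicative.toAdd x j)
  refine Finset.prod_congr rfl ?_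
  intro j _
  rw [toAdd_inv, Pi.neg_apply, qz_neg]

/-- monotonicity of the first passage function, by a maximum principle -/
lemma FA_mono {s : ℝ} (hs0 : 0 < s) (hs1 : s < 1) (h : AA) : FA s h ≤ FA 1 h := by
  have key : ∀ n : ℕ, ∀ h : AA, -(s ^ n) ≤ FA 1 h - FA s h := by
    intro n
    induction n with
    | zero =>
      intro h
      have h1 := FA_nonneg zero_le_one le_rfl h
      have h2 := FA_le_one hs0.le hs1.le h
      rw [pow_zero]
      linarith
    | succ n ih =>
      intro h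
      by_cases hh : h = 1
      · subst hh
        rw [FA_one zero_le_one le_rfl, FA_one hs0.le hs1.le, sub_self]
        have := pow_nonneg hs0.le (n + 1)
        linarith
      · have e1 := FA_eq one_pos le_rfl h
        have e2 := FA_eq hs0 hs1.le h
        rw [if_neg hh, sub_zero] at e1 e2
        have e1' : FA 1 h = nuA.sum (fun a w => w * FA 1 (a⁻¹ * h)) := by rw [e1]; simp
        have e2' : FA s h = s * nuA.sum (fun a w => w * FA s (a⁻¹ * h)) := by
          rw [e2]; field_simp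
        rw [e1', e2']
        have h3 : nuA.sum (fun a w => w * (-(s ^ n)))
            ≤ nuA.sum (fun a w => w * (FA 1 (a⁻¹ * h) - FA s (a⁻¹ * h))) := by
          unfold Finsupp.sum
          refine Finset.sum_le_sum ?_
          intro a _
          exact mul_le_mul_of_nonneg_left (ih _) (nuA_nonneg a)
        have h4 : nuA.sum (fun a w => w * (-(s ^ n))) = -(s ^ n) := by
          have : nuA.sum (fun a w => w * (-(s ^ n))) = nuA.sum (fun _ w => w) * (-(s ^ n)) := by
            unfold Finsupp.sum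
            rw [Finset.sum_mul]
          rw [this, nuA_total, one_mul]
        have h5 : nuA.sum (fun a w => w * (FA 1 (a⁻¹ * h) - FA s (a⁻¹ * h)))
            = nuA.sum (fun a w => w * FA 1 (a⁻¹ * h)) - nuA.sum (fun a w => w * FA s (a⁻¹ * h)) := by
          unfold Finsupp.sum
          rw [← Finset.sum_sub_distrib]
          refine Finset.sum_congr rfl ?_
          intro a _
          ring
        have h6 : 0 ≤ nuA.sum (fun a w => w * FA 1 (a⁻¹ * h)) := by
          unfold Finsupp.sum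
          exact Finset.sum_nonneg (fun a _ => mul_nonneg (nuA_nonneg a)
            (FA_nonneg zero_le_one le_rfl _))
        rw [h4, h5] at h3
        rw [pow_succ]
        nlinarith
  have hlim : Tendsto (fun n : ℕ => -(s ^ n)) atTop (𝓝 0) := by
    have := (tendsto_pow_atTop_nhds_zero_of_lt_one hs0.le hs1).neg
    simpa using this
  have := le_of_tendsto' hlim (fun n => key n h)
  linarith

end Pool.Agent.H977_rd
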