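import Mathlib
import Pool.Agent.H977_rd.WalkA

set_option autoImplicit false
open Finset Filter Topology

namespace Pool.Agent.H977_rd

lemma cn_zero : cn 0 = 1 := by simp [cn]

lemma cn_super (j k : ℕ) : cn j * cn k ≤ cn (j + k) := by
  induction k with
  | zero => simp [cn_zero]
  | succ k ih =>
    have h1 : ((2:ℝ) * k + 1) / (2 * k + 2)
        ≤ (2 * ((j + k : ℕ) : ℝ) + 1) / (2 * ((j + k : ℕ) : ℝ) + 2) := by
      rw [div_le_div_iff₀ (by positivity) (by positivity)]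
      push_cast
      have hj : (0:ℝ) ≤ j := Nat.cast_nonneg _
      nlinarith
    have h2 : (0:ℝ) ≤ ((2:ℝ) * k + 1) / (2 * k + 2) := by positivity
    rw [← add_assoc, cn_succ, cn_succ]
    calc cn j * (cn k * ((2 * k + 1) / (2 * k + 2)))
        = (cn j * cn k) * ((2 * k + 1) / (2 * k + 2)) := by ring
      _ ≤ cn (j + k) * ((2 * k + 1) / (2 * k + 2)) := by gcongr
      _ ≤ cn (j + k) * ((2 * ((j + k : ℕ) : ℝ) + 1) / (2 * ((j + k : ℕ) : ℝ) + 2)) :=
          mul_le_mul_of_nonneg_left h1 (cn_pos _).le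

lemma un_super (j k : ℕ) : un j * un k ≤ un (j + k) := by
  unfold un
  rw [← mul_pow]
  have h := cn_super j k
  have := cn_pos j
  have := cn_pos k
  gcongr

lemma cn_one : cn 1 = 1 / 2 := by
  have h := cn_succ 0
  rw [cn_zero] at h
  have h2 : cn 1 = cn (0 + 1) := rfl
  rw [h2, h]
  norm_num

lemma cn_two : cn 2 = 3 / 8 := by
  have h := cn_succ 1
  rw [cn_one] at h
  have h2 : cn 2 = cn (1 + 1) := rfl
  rw [h2, h]
  norm_num

lemma un_one : un 1 = 1 / 64 := by
  unfold un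
  rw [cn_one]
  norm_num

lemma un_one_sq_lt : un 1 * un 1 < un 2 := by
  unfold un
  rw [cn_one, cn_two]
  norm_num

lemma G1_one : G1 1 = ∑' n, un n := by
  unfold G1
  simp

noncomputable def kap : ℝ := ∑' n : ℕ, ((n:ℝ) + 1) * un n

lemma summable_kap : Summable (fun n : ℕ => ((n:ℝ) + 1) * un n) := by
  have h2 : Summable (fun n : ℕ => 1 / ((n:ℝ) + 1) ^ 2) := by
    have := (summable_nat_add_iff 1).2 (Real.summable_one_div_nat_pow.2 (by norm_num : 1 < 2))
    refine this.congr ?_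
    intro n
    push_cast
    rfl
  refine Summable.of_nonneg_of_le (fun n => mul_nonneg (by positivity) (un_pos n).le) ?_ h2
  intro n
  calc ((n:ℝ) + 1) * un n ≤ ((n:ℝ) + 1) * (1 / ((n:ℝ) + 1) ^ 3) := by
        have := un_le n
        gcongr
    _ = 1 / ((n:ℝ) + 1) ^ 2 := by field_simp

lemma antidiag_le (n : ℕ) : ∑ kl ∈ antidiagonal n, un kl.1 * un kl.2 ≤ ((n:ℝ) + 1) * un n := by
  calc ∑ kl ∈ antidiagonal n, un kl.1 * un kl.2 ≤ ∑ kl ∈ antidiagonal n, un n := by
        refine Finset.sum_le_sum ?_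
        intro kl hkl
        rw [HasAntidiagonal.mem_antidiagonal] at hkl
        rw [← hkl]
        exact un_super _ _
    _ = ((n:ℝ) + 1) * un n := by
        rw [Finset.sum_const, Finset.Nat.card_antidiagonal, nsmul_eq_mul]
        push_cast
        ring

theorem gam_sq_lt : G1 1 ^ 2 < kap := by
  have hs : Summable (fun n => ‖un n‖) := by
    refine summable_un.congr ?_
    intro n
    rw [Real.norm_of_nonneg (un_pos n).le]
  have h1 : G1 1 ^ 2 = ∑' n, ∑ kl ∈ antidiagonal n, un kl.1 * un kl.2 := by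
    rw [G1_one, sq]
    exact tsum_mul_tsum_eq_tsum_sum_antidiagonal_of_summable_norm hs hs
  have hs2 : Summable (fun n => ∑ kl ∈ antidiagonal n, un kl.1 * un kl.2) := by
    refine Summable.of_nonneg_of_le ?_ antidiag_le summable_kap
    intro n
    exact Finset.sum_nonneg (fun kl _ => mul_nonneg (un_pos _).le (un_pos _).le)
  rw [h1]
  unfold kap
  refine Summable.tsum_lt_tsum (i := 2) antidiag_le ?_ hs2 summable_kap
  have : antidiagonal 2 = {(0, 2), (1, 1), (2, 0)} := by decide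
  rw [this, Finset.sum_insert (by decide), Finset.sum_insert (by decide), Finset.sum_singleton]
  simp only [un_zero]
  have := un_one_sq_lt
  push_cast
  linarith

/-! ### the second order remainder -/

noncomputable def Rn (h : ℝ) (n : ℕ) : ℝ := n * h - 1 + (1 - h) ^ n

lemma Rn_nonneg {h : ℝ} (_h0 : 0 ≤ h) (h1 : h ≤ 1) (n : ℕ) : 0 ≤ Rn h n := by
  unfold Rn
  have := one_add_mul_le_pow (by linarith : (-2:ℝ) ≤ -h) n
  have e : (1 + -h) = 1 - h := by ring
  rw [e] at this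
  linarith

lemma Rn_succ (h : ℝ) (n : ℕ) : Rn h (n + 1) = Rn h n + h * (1 - (1 - h) ^ n) := by
  unfold Rn
  rw [pow_succ]
  push_cast
  ring

lemma Rn_le_lin {h : ℝ} (h0 : 0 ≤ h) (h1 : h ≤ 1) (n : ℕ) : Rn h n ≤ n * h := by
  unfold Rn
  have : (1 - h) ^ n ≤ 1 := pow_le_one₀ (by linarith) (by linarith)
  linarith

lemma Rn_le_quad {h : ℝ} (h0 : 0 ≤ h) (h1 : h ≤ 1) (n : ℕ) :
    Rn h n ≤ n * (n - 1) / 2 * h ^ 2 := by
  induction n with
  | zero => simp [Rn]
  | succ n ih =>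
    rw [Rn_succ]
    have h2 := Rn_nonneg h0 h1 n
    unfold Rn at h2
    have h3 : h * (1 - (1 - h) ^ n) ≤ h * (n * h) := by
      have : 1 - (1 - h) ^ n ≤ n * h := by linarith
      gcongr
    push_cast
    nlinarith

lemma Rn_ge_quad {h : ℝ} (h0 : 0 ≤ h) (n : ℕ) (hn : n * h ≤ 1) (h1 : h ≤ 1) :
    n * (n - 1) / 4 * h ^ 2 ≤ Rn h n := by
  induction n with
  | zero => simp [Rn]
  | succ n ih =>
    have hn' : (n:ℝ) * h ≤ 1 := by
      push_cast at hn
      nlinarith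
    have ih' := ih hn'
    rw [Rn_succ]
    have h2 := Rn_le_quad h0 h1 n
    unfold Rn at h2
    have h3 : (n:ℝ) * h / 2 ≤ 1 - (1 - h) ^ n := by
      have hnn : (0:ℝ) ≤ n := Nat.cast_nonneg _
      have h5 : (n:ℝ) * (n - 1) / 2 * h ^ 2 ≤ n * h / 2 := by
        have h6 : (n:ℝ) * (n - 1) / 2 * h ^ 2 = (n * h) * ((n - 1) * h) / 2 := by ring
        rw [h6]
        have h7 : ((n:ℝ) - 1) * h ≤ 1 := by nlinarith
        have h8 : 0 ≤ (n:ℝ) * h := by positivity
        nlinarith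
      linarith
    have h4 : h * (n * h / 2) ≤ h * (1 - (1 - h) ^ n) := by gcongr
    push_cast
    nlinarith

noncomputable def RR (h : ℝ) : ℝ := ∑' n, un n * Rn h n

lemma summable_nun : Summable (fun n : ℕ => (n:ℝ) * un n) := by
  refine Summable.of_nonneg_of_le (fun n => mul_nonneg (by positivity) (un_pos n).le) ?_
    summable_kap
  intro n
  have := un_pos n
  nlinarith

lemma tsum_nun : ∑' n : ℕ, (n:ℝ) * un n = kap - G1 1 := by
  rw [G1_one]
  unfold kap
  rw [← summable_kap.tsum_sub summable_un]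
  refine tsum_congr ?_
  intro n
  ring

lemma summable_RR {h : ℝ} (h0 : 0 ≤ h) (h1 : h ≤ 1) : Summable (fun n => un n * Rn h n) := by
  refine Summable.of_nonneg_of_le
    (fun n => mul_nonneg (un_pos n).le (Rn_nonneg h0 h1 n)) ?_ (summable_nun.mul_left h)
  intro n
  have h2 := Rn_le_lin h0 h1 n
  have h3 := (un_pos n).le
  calc un n * Rn h n ≤ un n * (n * h) := by gcongr
    _ = h * (n * un n) := by ring

lemma RR_nonneg {h : ℝ} (h0 : 0 ≤ h) (h1 : h ≤ 1) : 0 ≤ RR h :=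
  tsum_nonneg (fun n => mul_nonneg (un_pos n).le (Rn_nonneg h0 h1 n))

/-- expansion of `G1` at `1` -/
theorem G1_expand {h : ℝ} (h0 : 0 ≤ h) (h1 : h ≤ 1) :
    G1 1 - G1 (1 - h) = (kap - G1 1) * h - RR h := by
  have hs := summable_G1 (s := 1 - h) (by linarith) (by linarith)
  have e1 : G1 1 - G1 (1 - h) = ∑' n, (un n - (1 - h) ^ n * un n) := by
    rw [summable_un.tsum_sub hs, G1_one]
    rfl
  have e2 : (kap - G1 1) * h - RR h = ∑' n : ℕ, ((n:ℝ) * un n * h - un n * Rn h n) := by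
    rw [(summable_nun.mul_right h).tsum_sub (summable_RR h0 h1), tsum_mul_right, tsum_nun]
    rfl
  rw [e1, e2]
  refine tsum_congr ?_
  intro n
  unfold Rn
  ring

/-- `R(h)/h² → ∞` -/
theorem RR_ge (K : ℝ) : ∃ h0 : ℝ, 0 < h0 ∧ h0 ≤ 1 ∧ ∀ h, 0 < h → h ≤ h0 → K * h ^ 2 ≤ RR h := by
  obtain ⟨N, hN⟩ := (Real.tendsto_sum_range_one_div_nat_succ_atTop.eventually_ge_atTop
    (512 * K + 1)).exists
  have hterm : ∀ i : ℕ, 1 / 512 * (1 / ((i:ℝ) + 1)) - (if i = 0 then 1 / 512 else 0)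
      ≤ un (i + 1) * (((i + 1 : ℕ) : ℝ) * (((i + 1 : ℕ) : ℝ) - 1) / 4) := by
    intro i
    by_cases hi : i = 0
    · subst hi
      norm_num
    · rw [if_neg hi]
      have hi1 : (1:ℝ) ≤ i := by exact_mod_cast Nat.one_le_iff_ne_zero.2 hi
      have h1 := un_ge (i + 1) (by omega)
      push_cast at h1 ⊢
      have h2 : ((i:ℝ) + 1) * ((i:ℝ) + 1 - 1) / 4 = ((i:ℝ) + 1) * i / 4 := by ring
      rw [h2, sub_zero]
      calc 1 / 512 * (1 / ((i:ℝ) + 1)) ≤ 1 / (64 * ((i:ℝ) + 1) ^ 3) * (((i:ℝ) + 1) * i / 4) := by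
            have e : 1 / (64 * ((i:ℝ) + 1) ^ 3) * (((i:ℝ) + 1) * i / 4)
                = (1 / ((i:ℝ) + 1)) * (i / ((i:ℝ) + 1) / 256) := by
              field_simp
              ring
            rw [e]
            have h3 : (1:ℝ) / 2 ≤ i / ((i:ℝ) + 1) := by
              rw [div_le_div_iff₀ (by norm_num) (by positivity)]
              linarith
            have h4 : (0:ℝ) < 1 / ((i:ℝ) + 1) := by positivity
            nlinarith
        _ ≤ un (i + 1) * (((i:ℝ) + 1) * i / 4) := by gcongr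
  have hsum : K ≤ ∑ i ∈ range N, un (i + 1) * (((i + 1 : ℕ) : ℝ) * (((i + 1 : ℕ) : ℝ) - 1) / 4) := by
    have h1 : ∑ i ∈ range N, (1 / 512 * (1 / ((i:ℝ) + 1)) - (if i = 0 then 1 / 512 else 0))
        ≤ ∑ i ∈ range N, un (i + 1) * (((i + 1 : ℕ) : ℝ) * (((i + 1 : ℕ) : ℝ) - 1) / 4) :=
      Finset.sum_le_sum (fun i _ => hterm i)
    have h2 : ∑ i ∈ range N, (1 / 512 * (1 / ((i:ℝ) + 1)) - (if i = 0 then (1:ℝ) / 512 else 0))
        = 1 / 512 * ∑ i ∈ range N, 1 / ((i:ℝ) + 1) - ∑ i ∈ range N, (if i = 0 then (1:ℝ) / 512 else 0) := by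
      rw [Finset.sum_sub_distrib, Finset.mul_sum]
    have h3 : ∑ i ∈ range N, (if i = 0 then (1:ℝ) / 512 else 0) ≤ 1 / 512 := by
      rw [Finset.sum_ite_eq']
      split_ifs <;> norm_num
    rw [h2] at h1
    linarith
  refine ⟨1 / ((N:ℝ) + 1), by positivity, ?_, ?_⟩
  · rw [div_le_one (by positivity)]
    have : (0:ℝ) ≤ N := Nat.cast_nonneg _
    linarith
  · intro h hpos hle
    have hN1 : ((N:ℝ) + 1) * h ≤ 1 := by
      rw [le_div_iff₀ (by positivity)] at hle
      linarith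
    have hNn : (0:ℝ) ≤ N := Nat.cast_nonneg _
    have hh1 : h ≤ 1 := by nlinarith
    have hs := summable_RR hpos.le hh1
    have h1 : ∑ n ∈ range (N + 1), un n * Rn h n ≤ RR h :=
      hs.sum_le_tsum _ (fun n _ => mul_nonneg (un_pos n).le (Rn_nonneg hpos.le hh1 n))
    rw [Finset.sum_range_succ'] at h1
    have h2 : 0 ≤ un 0 * Rn h 0 := mul_nonneg (un_pos 0).le (Rn_nonneg hpos.le hh1 0)
    have h3 : ∑ i ∈ range N, un (i + 1) * (((i + 1 : ℕ) : ℝ) * (((i + 1 : ℕ) : ℝ) - 1) / 4) * h ^ 2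
        ≤ ∑ i ∈ range N, un (i + 1) * Rn h (i + 1) := by
      refine Finset.sum_le_sum ?_
      intro i hi
      rw [mem_range] at hi
      have h4 : ((i + 1 : ℕ) : ℝ) * h ≤ 1 := by
        have h5 : ((i + 1 : ℕ) : ℝ) ≤ N + 1 := by
          have : i + 1 ≤ N + 1 := by omega
          exact_mod_cast this
        nlinarith
      have h6 := Rn_ge_quad hpos.le (i + 1) h4 hh1
      have h7 := (un_pos (i + 1)).le
      rw [mul_assoc]
      gcongr
    rw [← Finset.sum_mul] at h3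
    have h8 : K * h ^ 2 ≤ (∑ i ∈ range N, un (i + 1) *
        (((i + 1 : ℕ) : ℝ) * (((i + 1 : ℕ) : ℝ) - 1) / 4)) * h ^ 2 := by gcongr
    linarith

/-- `R(h) ≤ C h^(2-η)` -/
theorem RR_le {η : ℝ} (hη : 0 < η) (hη1 : η < 1) :
    ∃ C : ℝ, 0 < C ∧ ∀ h, 0 < h → h ≤ 1 → RR h ≤ C * h ^ (2 - η) := by
  have hs : Summable (fun n : ℕ => un n * (n:ℝ) ^ (2 - η)) := by
    have h2 : Summable (fun n : ℕ => 1 / ((n:ℝ) + 1) ^ (1 + η)) := by
      have h3 := (summable_nat_add_iff 1).2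
        ((Real.summable_one_div_nat_rpow (p := 1 + η)).2 (by linarith))
      refine h3.congr ?_
      intro n
      push_cast
      rfl
    refine Summable.of_nonneg_of_le (fun n => mul_nonneg (un_pos n).le (by positivity)) ?_ h2
    intro n
    have hn1 : (0:ℝ) < (n:ℝ) + 1 := by positivity
    calc un n * (n:ℝ) ^ (2 - η) ≤ (1 / ((n:ℝ) + 1) ^ 3) * ((n:ℝ) + 1) ^ (2 - η) := by
          have h4 := un_le n
          have h5 : (n:ℝ) ^ (2 - η) ≤ ((n:ℝ) + 1) ^ (2 - η) :=
            Real.rpow_le_rpow (by positivity) (by linarith) (by linarith)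
          have h6 := (un_pos n).le
          gcongr
      _ = 1 / ((n:ℝ) + 1) ^ (1 + η) := by
          have e1 : ((n:ℝ) + 1) ^ 3 = ((n:ℝ) + 1) ^ (3:ℝ) := by
            rw [← Real.rpow_natCast]; norm_num
          have e2 : ((n:ℝ) + 1) ^ (3:ℝ) = ((n:ℝ) + 1) ^ (2 - η) * ((n:ℝ) + 1) ^ (1 + η) := by
            rw [← Real.rpow_add hn1]
            congr 1
            ring
          rw [e1, e2]
          have h7 : 0 < ((n:ℝ) + 1) ^ (2 - η) := by positivity
          have h8 : 0 < ((n:ℝ) + 1) ^ (1 + η) := by positivity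
          field_simp
  refine ⟨∑' n : ℕ, un n * (n:ℝ) ^ (2 - η) + 1, ?_, ?_⟩
  · have : 0 ≤ ∑' n : ℕ, un n * (n:ℝ) ^ (2 - η) :=
      tsum_nonneg (fun n => mul_nonneg (un_pos n).le (by positivity))
    linarith
  · intro h hpos hle
    have hx : ∀ x : ℝ, 0 ≤ x → ∀ y : ℝ, y ≤ x → y ≤ x ^ 2 → y ≤ x ^ (2 - η) := by
      intro x hx y hy1 hy2
      rcases le_total x 1 with h1 | h1
      · rcases hx.eq_or_lt with h0 | h0
        · rw [← h0] at hy1 ⊢
          rw [Real.zero_rpow (by linarith)]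
          exact hy1
        · refine hy2.trans ?_
          rw [← Real.rpow_natCast]
          exact Real.rpow_le_rpow_of_exponent_ge h0 h1 (by push_cast; linarith)
      · refine hy1.trans ?_
        calc x = x ^ (1:ℝ) := (Real.rpow_one x).symm
          _ ≤ x ^ (2 - η) := Real.rpow_le_rpow_of_exponent_le h1 (by linarith)
    have h1 : RR h ≤ ∑' n : ℕ, un n * (n:ℝ) ^ (2 - η) * h ^ (2 - η) := by
      unfold RR
      refine (summable_RR hpos.le hle).tsum_le_tsum ?_ (hs.mul_right _)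
      intro n
      rw [mul_assoc, ← Real.mul_rpow (by positivity) hpos.le]
      have h2 := (un_pos n).le
      refine mul_le_mul_of_nonneg_left ?_ h2
      refine hx _ (by positivity) _ (Rn_le_lin hpos.le hle n) ?_
      refine (Rn_le_quad hpos.le hle n).trans ?_
      have hn : (0:ℝ) ≤ n := Nat.cast_nonneg _
      rw [mul_pow]
      have : (n:ℝ) * (n - 1) / 2 ≤ n ^ 2 := by nlinarith
      gcongr
    rw [tsum_mul_right] at h1
    have h3 : 0 < h ^ (2 - η) := by positivity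
    nlinarith

end Pool.Agent.H977_rd
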