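import Mathlib
import Pool.Agent.H977_rd.WalkA

set_option autoImplicit false
open Finset Filter Topology Monoid Monoid.CoprodI

namespace Pool.Agent.H977_rd

def e0 : AA := Multiplicative.ofAdd (Pi.single 0 1)

/-- step law on the axis of the second factor -/
noncomputable def nuB : AA →₀ ℝ := Finsupp.single e0 (1 / 2) + Finsupp.single e0⁻¹ (1 / 2)

lemma nuB_sum (f : AA → ℝ) : nuB.sum (fun a w => w * f a) = (f e0 + f e0⁻¹) / 2 := by
  unfold nuB
  rw [Finsupp.sum_add_index' (by intro a; ring) (by intro a b c; ring),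
    Finsupp.sum_single_index (by ring), Finsupp.sum_single_index (by ring)]
  ring

noncomputable def FB (r : ℝ) (h : AA) : ℝ :=
  if ∀ j : Fin 6, j ≠ 0 → Multiplicative.toAdd h j = 0 then
    r ^ (Multiplicative.toAdd h 0).natAbs else 0

lemma FB_one (r : ℝ) : FB r 1 = 1 := by
  unfold FB
  rw [if_pos (by intro j _; simp)]
  simp

lemma FB_nonneg {r : ℝ} (hr : 0 ≤ r) (h : AA) : 0 ≤ FB r h := by
  unfold FB
  split_ifs
  · exact pow_nonneg hr _
  · exact le_rfl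

lemma FB_mono {r r' : ℝ} (hr : 0 ≤ r) (hrr : r ≤ r') (h : AA) : FB r h ≤ FB r' h := by
  unfold FB
  split_ifs
  · exact pow_le_pow_left₀ hr hrr _
  · exact le_rfl

lemma FB_eq {t w r : ℝ} (ht : 0 < t) (hw : 0 < w) (hwt : w ^ 2 = 1 + t ^ 2) (hr : r = t / (1 + w))
    (h : AA) :
    nuB.sum (fun a x => x * FB r (a⁻¹ * h)) = (FB r h - if h = 1 then 1 / w else 0) / (t / w) := by
  rw [nuB_sum (fun a => FB r (a⁻¹ * h))]
  have c1 : ∀ j : Fin 6, Multiplicative.toAdd (e0⁻¹ * h) j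
      = Multiplicative.toAdd h j - (Pi.single 0 1 : Fin 6 → ℤ) j := by
    intro j
    unfold e0
    rw [toAdd_mul, toAdd_inv, toAdd_ofAdd, Pi.add_apply, Pi.neg_apply]
    ring
  have c2 : ∀ j : Fin 6, Multiplicative.toAdd ((e0⁻¹)⁻¹ * h) j
      = Multiplicative.toAdd h j + (Pi.single 0 1 : Fin 6 → ℤ) j := by
    intro j
    unfold e0
    rw [inv_inv, toAdd_mul, toAdd_ofAdd, Pi.add_apply]
    ring
  have c1' : ∀ j : Fin 6, j ≠ 0 → Multiplicative.toAdd (e0⁻¹ * h) j = Multiplicative.toAdd h j := by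
    intro j hj
    rw [c1, Pi.single_eq_of_ne hj, sub_zero]
  have c2' : ∀ j : Fin 6, j ≠ 0 → Multiplicative.toAdd ((e0⁻¹)⁻¹ * h) j
      = Multiplicative.toAdd h j := by
    intro j hj
    rw [c2, Pi.single_eq_of_ne hj, add_zero]
  by_cases hax : ∀ j : Fin 6, j ≠ 0 → Multiplicative.toAdd h j = 0
  · have f1 : FB r (e0⁻¹ * h) = r ^ (Multiplicative.toAdd h 0 - 1).natAbs := by
      unfold FB
      rw [if_pos (by intro j hj; rw [c1' j hj]; exact hax j hj), c1, Pi.single_eq_same]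
    have f2 : FB r ((e0⁻¹)⁻¹ * h) = r ^ (Multiplicative.toAdd h 0 + 1).natAbs := by
      unfold FB
      rw [if_pos (by intro j hj; rw [c2' j hj]; exact hax j hj), c2, Pi.single_eq_same]
    have f3 : FB r h = r ^ (Multiplicative.toAdd h 0).natAbs := by
      unfold FB
      rw [if_pos hax]
    rw [f1, f2, f3]
    set k := Multiplicative.toAdd h 0 with hk
    have hw1 : 0 < 1 + w := by linarith
    by_cases hh : h = 1
    · have hk0 : k = 0 := by rw [hk, hh]; simp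
      rw [if_pos hh, hk0]
      simp only [zero_sub, zero_add, Int.natAbs_neg, Int.natAbs_one, pow_one, Int.natAbs_zero,
        pow_zero]
      rw [hr]
      field_simp
      nlinarith
    · rw [if_neg hh]
      have hk0 : k ≠ 0 := by
        intro hk0
        apply hh
        have : Multiplicative.toAdd h = 0 := by
          ext j
          by_cases hj : j = 0
          · rw [hj]; exact hk0
          · exact hax j hj
        exact this
      obtain ⟨m, hm1, hm2⟩ : ∃ m : ℕ, k.natAbs = m + 1 ∧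
          ((k - 1).natAbs = m ∧ (k + 1).natAbs = m + 2 ∨ (k - 1).natAbs = m + 2 ∧ (k + 1).natAbs = m) := by
        refine ⟨k.natAbs - 1, by omega, ?_⟩
        rcases lt_or_gt_of_ne hk0 with h1 | h1
        · right; omega
        · left; omega
      have hmain : (r ^ m + r ^ (m + 2)) / 2 = r ^ (m + 1) / (t / w) := by
        have h1 : 1 + r ^ 2 = 2 * (r * w / t) := by
          rw [hr]
          field_simp
          nlinarith
        have h2 : r ^ m + r ^ (m + 2) = r ^ m * (1 + r ^ 2) := by ring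
        rw [h2, h1, pow_succ]
        field_simp
      rw [hm1, sub_zero]
      rcases hm2 with ⟨ha, hb⟩ | ⟨ha, hb⟩
      · rw [ha, hb, hmain]
      · rw [ha, hb, ← hmain]; ring
  · have f1 : FB r (e0⁻¹ * h) = 0 := by
      unfold FB
      rw [if_neg]
      intro hcon
      apply hax
      intro j hj
      rw [← c1' j hj]; exact hcon j hj
    have f2 : FB r ((e0⁻¹)⁻¹ * h) = 0 := by
      unfold FB
      rw [if_neg]
      intro hcon
      apply hax
      intro j hj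
      rw [← c2' j hj]; exact hcon j hj
    have f3 : FB r h = 0 := by
      unfold FB
      rw [if_neg hax]
    have hh : h ≠ 1 := by
      intro hh
      apply hax
      intro j _
      rw [hh]; simp
    rw [f1, f2, f3, if_neg hh]
    simp

lemma nuB_nonneg (x : AA) : 0 ≤ nuB x := by
  unfold nuB
  rw [Finsupp.add_apply, Finsupp.single_apply, Finsupp.single_apply]
  split_ifs <;> norm_num

lemma nuB_total : nuB.sum (fun _ w => w) = 1 := by
  have := nuB_sum (fun _ => 1)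
  simp only [mul_one] at this
  rw [this]
  norm_num

lemma nuB_symm (x : AA) : nuB x⁻¹ = nuB x := by
  unfold nuB
  rw [Finsupp.add_apply, Finsupp.add_apply, Finsupp.single_apply, Finsupp.single_apply,
    Finsupp.single_apply, Finsupp.single_apply]
  have h1 : (e0 = x⁻¹) ↔ (e0⁻¹ = x) := by
    constructor
    · intro h; rw [h, inv_inv]
    · intro h; rw [← h, inv_inv]
  have h2 : (e0⁻¹ = x⁻¹) ↔ (e0 = x) := inv_inj
  simp only [h1, h2]
  ring

lemma of_inj (i : Bool) : Function.Injective (of (M := fun _ : Bool => AA) (i := i)) :=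
  of_injective i

/-- push forward to the free product -/
noncomputable def mD (i : Bool) (ν : AA →₀ ℝ) : Gm →₀ ℝ :=
  ν.mapDomain (of (M := fun _ : Bool => AA) (i := i))

lemma mD_of (i : Bool) (ν : AA →₀ ℝ) (a : AA) :
    mD i ν (of (M := fun _ : Bool => AA) (i := i) a) = ν a := by
  unfold mD
  rw [Finsupp.mapDomain_apply (of_inj i)]

lemma mD_notin (i : Bool) (ν : AA →₀ ℝ) (x : Gm)
    (hx : x ∉ Set.range (of (M := fun _ : Bool => AA) (i := i))) : mD i ν x = 0 := by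
  unfold mD
  rw [Finsupp.mapDomain_of_notMem_range _ _ hx]

lemma mD_nonneg (i : Bool) {ν : AA →₀ ℝ} (hν : ∀ x, 0 ≤ ν x) (x : Gm) : 0 ≤ mD i ν x := by
  by_cases hx : x ∈ Set.range (of (M := fun _ : Bool => AA) (i := i))
  · obtain ⟨a, rfl⟩ := hx
    rw [mD_of]
    exact hν a
  · rw [mD_notin _ _ _ hx]

lemma mD_symm (i : Bool) {ν : AA →₀ ℝ} (hν : ∀ x, ν x⁻¹ = ν x) (x : Gm) :
    mD i ν x⁻¹ = mD i ν x := by
  by_cases hx : x ∈ Set.range (of (M := fun _ : Bool => AA) (i := i))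
  · obtain ⟨a, rfl⟩ := hx
    rw [← map_inv, mD_of, mD_of]
    exact hν a
  · have hx' : x⁻¹ ∉ Set.range (of (M := fun _ : Bool => AA) (i := i)) := by
      rintro ⟨a, ha⟩
      apply hx
      exact ⟨a⁻¹, by rw [map_inv, ha, inv_inv]⟩
    rw [mD_notin _ _ _ hx, mD_notin _ _ _ hx']

/-- the measure -/
noncomputable def nu (Λ : ℝ) : Gm →₀ ℝ := nuG (1 / (1 + Λ)) (Λ / (1 + Λ)) nuA nuB

lemma nu_eq (Λ : ℝ) : nu Λ = (1 / (1 + Λ)) • mD true nuA + (Λ / (1 + Λ)) • mD false nuB := rfl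

lemma comb_apply (a b : ℝ) (f g : Gm →₀ ℝ) (x : Gm) : (a • f + b • g) x = a * f x + b * g x := rfl

lemma nu_apply (Λ : ℝ) (x : Gm) : nu Λ x
    = 1 / (1 + Λ) * mD true nuA x + Λ / (1 + Λ) * mD false nuB x := by
  rw [nu_eq]
  exact comb_apply _ _ _ _ _

lemma nu_nonneg {Λ : ℝ} (hΛ : 0 < Λ) (x : Gm) : 0 ≤ nu Λ x := by
  rw [nu_apply]
  have h1 := mD_nonneg true nuA_nonneg x
  have h2 := mD_nonneg false nuB_nonneg x
  have h3 : 0 < 1 / (1 + Λ) := by positivity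
  have h4 : 0 < Λ / (1 + Λ) := by positivity
  exact add_nonneg (mul_nonneg h3.le h1) (mul_nonneg h4.le h2)

lemma nu_symm (Λ : ℝ) (x : Gm) : nu Λ x⁻¹ = nu Λ x := by
  rw [nu_apply, nu_apply, mD_symm true nuA_symm, mD_symm false nuB_symm]

lemma nu_total {Λ : ℝ} (hΛ : 0 < Λ) : (nu Λ).sum (fun _ a => a) = 1 := by
  have h := Mop_nuG (1 / (1 + Λ)) (Λ / (1 + Λ)) nuA nuB (fun _ => 1) 1
  unfold Mop at h
  simp only [mul_one] at h
  unfold nu
  rw [h, nuA_total, nuB_total]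
  field_simp

noncomputable def th (s : ℝ) : ℝ := s * G1 s
noncomputable def ww (Λ s : ℝ) : ℝ := √(1 + (Λ * th s) ^ 2)
noncomputable def GG (Λ s : ℝ) : ℝ := G1 s + ww Λ s - 1
noncomputable def zz (Λ s : ℝ) : ℝ := (th s * (1 + Λ)) / GG Λ s
noncomputable def rr (Λ s : ℝ) : ℝ := (Λ * th s) / (1 + ww Λ s)
noncomputable def FF (Λ s : ℝ) (i : Bool) : AA → ℝ := if i then FA s else FB (rr Λ s)
noncomputable def gs (Λ s : ℝ) (x : Gm) : ℝ := GG Λ s * gw (G := fun _ : Bool => AA) (FF Λ s) (wd x)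

lemma ww_sq (Λ s : ℝ) : ww Λ s ^ 2 = 1 + (Λ * th s) ^ 2 := by
  unfold ww
  rw [Real.sq_sqrt (by positivity)]

lemma ww_ge_one (Λ s : ℝ) : 1 ≤ ww Λ s := by
  unfold ww
  rw [Real.one_le_sqrt]
  nlinarith [sq_nonneg (Λ * th s)]

lemma th_pos {s : ℝ} (hs0 : 0 < s) (hs1 : s ≤ 1) : 0 < th s := by
  unfold th
  have := G1_ge_one hs0.le hs1
  positivity

lemma GG_ge_one {Λ s : ℝ} (hs0 : 0 < s) (hs1 : s ≤ 1) : 1 ≤ GG Λ s := by
  unfold GG
  have := G1_ge_one hs0.le hs1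
  have := ww_ge_one Λ s
  linarith

lemma rr_nonneg {Λ s : ℝ} (hΛ : 0 < Λ) (hs0 : 0 < s) (hs1 : s ≤ 1) : 0 ≤ rr Λ s := by
  unfold rr
  have := th_pos hs0 hs1
  have := ww_ge_one Λ s
  positivity

lemma FF_one {Λ s : ℝ} (hs0 : 0 < s) (hs1 : s ≤ 1) (i : Bool) : FF Λ s i 1 = 1 := by
  unfold FF
  cases i
  · simp [FB_one]
  · simp [FA_one hs0.le hs1]

lemma FF_nonneg {Λ s : ℝ} (hΛ : 0 < Λ) (hs0 : 0 < s) (hs1 : s ≤ 1) (i : Bool) (m : AA) :
    0 ≤ FF Λ s i m := by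
  unfold FF
  cases i
  · simp [FB_nonneg (rr_nonneg hΛ hs0 hs1)]
  · simp [FA_nonneg hs0.le hs1]

lemma gs_nonneg {Λ s : ℝ} (hΛ : 0 < Λ) (hs0 : 0 < s) (hs1 : s ≤ 1) (x : Gm) : 0 ≤ gs Λ s x := by
  unfold gs
  have h1 := GG_ge_one (Λ := Λ) hs0 hs1
  exact mul_nonneg (by linarith) (gw_nonneg (FF_nonneg hΛ hs0 hs1) _)

lemma gs_eq {Λ s : ℝ} (hΛ : 0 < Λ) (hs0 : 0 < s) (hs1 : s ≤ 1) (x : Gm) :
    gs Λ s x = dl x + zz Λ s * Mop (nu Λ) (gs Λ s) x := by
  have hG1 := G1_ge_one hs0.le hs1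
  have hth := th_pos hs0 hs1
  have hw := ww_ge_one Λ s
  have hGG := GG_ge_one (Λ := Λ) hs0 hs1
  have hΛ1 : 0 < 1 + Λ := by linarith
  have ht : 0 < Λ * th s := by positivity
  have h := solution (F := FF Λ s) (FF_one hs0 hs1) (ν1 := nuA) (ν2 := nuB)
    (α := 1 / (1 + Λ)) (β := Λ / (1 + Λ)) (g1 := G1 s) (g2 := ww Λ s) (s1 := s)
    (s2 := (Λ * th s) / ww Λ s) (T := th s * (1 + Λ)) (by linarith) (by linarith) (by positivity)
    (by unfold GG at hGG; linarith)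
    (by
      intro h
      simp only [FF, if_true]
      exact FA_eq hs0 hs1 h)
    (by
      intro h
      have := FB_eq ht (by linarith : 0 < ww Λ s) (ww_sq Λ s) (rfl : rr Λ s = _) h
      simpa [FF] using this)
    (by unfold th; field_simp)
    (by field_simp) x
  exact h

lemma gs_one {Λ s : ℝ} : gs Λ s 1 = GG Λ s := by
  unfold gs
  have hw : wd (1 : Gm) = Word.empty := by
    unfold wd
    rw [one_smul]
  rw [hw, gw_empty, mul_one]

lemma G1_mono {s : ℝ} (hs0 : 0 ≤ s) (hs1 : s ≤ 1) : G1 s ≤ G1 1 := by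
  unfold G1
  refine (summable_G1 hs0 hs1).tsum_le_tsum ?_ (summable_G1 zero_le_one le_rfl)
  intro n
  have h1 : s ^ n ≤ 1 := pow_le_one₀ hs0 hs1
  have h2 := (un_pos n).le
  rw [one_pow]
  gcongr

lemma th_mono {s : ℝ} (hs0 : 0 ≤ s) (hs1 : s ≤ 1) : th s ≤ th 1 := by
  unfold th
  have h1 := G1_mono hs0 hs1
  have h2 := G1_ge_one hs0 hs1
  nlinarith

lemma ww_mono {Λ s : ℝ} (hΛ : 0 < Λ) (hs0 : 0 < s) (hs1 : s ≤ 1) : ww Λ s ≤ ww Λ 1 := by
  unfold ww
  apply Real.sqrt_le_sqrt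
  have h1 := th_mono hs0.le hs1
  have h2 := th_pos hs0 hs1
  have : Λ * th s ≤ Λ * th 1 := by gcongr
  have : (Λ * th s) ^ 2 ≤ (Λ * th 1) ^ 2 := by gcongr
  linarith

lemma rr_mono {Λ s : ℝ} (hΛ : 0 < Λ) (hs0 : 0 < s) (hs1 : s ≤ 1) : rr Λ s ≤ rr Λ 1 := by
  have h1 := ww_mono hΛ hs0 hs1
  have h2 := ww_ge_one Λ s
  have h3 := ww_sq Λ s
  have h4 := ww_sq Λ 1
  have h5 : ∀ s', 0 < s' → s' ≤ 1 → rr Λ s' ^ 2 = (ww Λ s' - 1) / (ww Λ s' + 1) := by
    intro s' hs' hs1'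
    unfold rr
    have h6 := ww_ge_one Λ s'
    have h7 := ww_sq Λ s'
    rw [div_pow, div_eq_div_iff (by positivity) (by positivity)]
    have : (Λ * th s') ^ 2 = ww Λ s' ^ 2 - 1 := by linarith
    rw [this]
    ring
  have h8 := rr_nonneg hΛ one_pos le_rfl
  refine le_of_sq_le_sq ?_ h8
  rw [h5 s hs0 hs1, h5 1 one_pos le_rfl, div_le_div_iff₀ (by linarith) (by linarith)]
  nlinarith

lemma gs_mono {Λ s : ℝ} (hΛ : 0 < Λ) (hs0 : 0 < s) (hs1 : s < 1) (x : Gm) :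
    gs Λ s x ≤ gs Λ 1 x := by
  unfold gs
  have h1 : GG Λ s ≤ GG Λ 1 := by
    unfold GG
    have := G1_mono hs0.le hs1.le
    have := ww_mono hΛ hs0 hs1.le
    linarith
  have h2 := GG_ge_one (Λ := Λ) one_pos le_rfl
  refine mul_le_mul h1 ?_ (gw_nonneg (FF_nonneg hΛ hs0 hs1.le) _) (by linarith)
  refine gw_mono (FF_nonneg hΛ hs0 hs1.le) ?_ _
  intro i m
  unfold FF
  cases i
  · simpa using FB_mono (rr_nonneg hΛ hs0 hs1.le) (rr_mono hΛ hs0 hs1.le) m
  · simpa using FA_mono hs0 hs1 m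

/-- Green function of the free product walk in parametric form. -/
theorem green_param {Λ s : ℝ} (hΛ : 0 < Λ) (hs0 : 0 < s) (hs1 : s < 1) (hz : zz Λ s < zz Λ 1) :
    HasSum (fun n => zz Λ s ^ n * (Mop (nu Λ))^[n] dl (1 : Gm)) (GG Λ s) := by
  have hz0 : 0 ≤ zz Λ s := by
    unfold zz
    have := th_pos hs0 hs1.le
    have := GG_ge_one (Λ := Λ) hs0 hs1.le
    positivity
  have := green_eq (nu_nonneg hΛ) hz0 hz (gs_nonneg hΛ hs0 hs1.le) (gs_mono hΛ hs0 hs1)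
    (gs_eq hΛ hs0 hs1.le) (gs_eq hΛ one_pos le_rfl)
  rwa [gs_one] at this

lemma zz_one_pos {Λ : ℝ} (hΛ : 0 < Λ) : 0 < zz Λ 1 := by
  unfold zz
  have := th_pos one_pos le_rfl
  have := GG_ge_one (Λ := Λ) one_pos le_rfl
  positivity

theorem partial_one {Λ : ℝ} (hΛ : 0 < Λ) (N : ℕ) :
    ∑ n ∈ range N, zz Λ 1 ^ n * (Mop (nu Λ))^[n] dl (1 : Gm) ≤ GG Λ 1 := by
  have := partial_le (nu_nonneg hΛ) (zz_one_pos hΛ).le (gs_nonneg hΛ one_pos le_rfl)
    (gs_eq hΛ one_pos le_rfl) N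
  rwa [gs_one] at this

end Pool.Agent.H977_rd
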