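import Mathlib
import Pool.Agent.H977_rd.WalkB
import Pool.Agent.H977_rd.Anal

set_option autoImplicit false
open Finset Filter Topology

namespace Pool.Agent.H977_rd

noncomputable def gam : ℝ := G1 1
noncomputable def qq : ℝ := gam ^ 2 / kap
noncomputable def phi : ℝ := 1 / (1 - qq)
noncomputable def Lam : ℝ := √(phi ^ 2 - 1) / gam

lemma gam_ge_one : 1 ≤ gam := G1_ge_one zero_le_one le_rfl

lemma gam_sq_lt' : gam ^ 2 < kap := gam_sq_lt

lemma kap_pos : 0 < kap := lt_of_le_of_lt (sq_nonneg _) gam_sq_lt'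

lemma qq_pos : 0 < qq := by
  have := gam_ge_one
  have := kap_pos
  unfold qq
  positivity

lemma qq_lt : qq < 1 := by
  unfold qq
  rw [div_lt_one kap_pos]
  exact gam_sq_lt'

lemma qq_kap : qq * kap = gam ^ 2 := by
  have := kap_pos
  unfold qq
  field_simp

lemma phi_gt : 1 < phi := by
  unfold phi
  have h1 := qq_pos
  have h2 := qq_lt
  rw [lt_div_iff₀ (by linarith)]
  linarith

lemma phi_inv : 1 / phi = 1 - qq := by
  unfold phi
  rw [one_div_one_div]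

lemma Lam_pos : 0 < Lam := by
  unfold Lam
  have h1 := gam_ge_one
  have h2 := phi_gt
  have h3 : 0 < phi ^ 2 - 1 := by nlinarith
  positivity

lemma Lam_gam_sq : (Lam * gam) ^ 2 = phi ^ 2 - 1 := by
  unfold Lam
  have h1 := gam_ge_one
  have h2 := phi_gt
  have h3 : 0 ≤ phi ^ 2 - 1 := by nlinarith
  have h4 : gam ≠ 0 := by linarith
  rw [div_mul_cancel₀ _ h4, Real.sq_sqrt h3]

lemma th_one : th 1 = gam := by unfold th gam; ring

lemma ww_one : ww Lam 1 = phi := by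
  unfold ww
  rw [th_one, Lam_gam_sq]
  have h2 := phi_gt
  rw [show 1 + (phi ^ 2 - 1) = phi ^ 2 by ring, Real.sqrt_sq (by linarith)]

lemma W_bounds {L g φ Δ W : ℝ} (_hL : 0 < L) (_hg : 0 < g) (hφ : 1 ≤ φ) (hW : 1 ≤ W)
    (h1 : φ ^ 2 = 1 + L ^ 2 * g ^ 2) (h2 : W ^ 2 = 1 + L ^ 2 * (g - Δ) ^ 2) :
    φ - L ^ 2 * g / φ * Δ ≤ W ∧ W ≤ φ - L ^ 2 * g / φ * Δ + L ^ 2 / 2 * Δ ^ 2 := by
  set p := L ^ 2 * g / φ with hp
  have hφ0 : φ ≠ 0 := by linarith
  have hφp : φ * p = L ^ 2 * g := by rw [hp]; field_simp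
  have hp2 : p ^ 2 ≤ L ^ 2 := by
    have h3 : p ^ 2 * φ ^ 2 = L ^ 2 * (L ^ 2 * g ^ 2) := by
      calc p ^ 2 * φ ^ 2 = (φ * p) ^ 2 := by ring
        _ = L ^ 2 * (L ^ 2 * g ^ 2) := by rw [hφp]; ring
    have h4 : L ^ 2 * (L ^ 2 * g ^ 2) ≤ L ^ 2 * φ ^ 2 := by
      have : L ^ 2 * g ^ 2 ≤ φ ^ 2 := by linarith
      gcongr
    have h5 : 0 < φ ^ 2 := by positivity
    rw [← h3] at h4
    exact le_of_mul_le_mul_right h4 h5
  have hW2 : W ^ 2 = φ ^ 2 - 2 * (φ * p) * Δ + L ^ 2 * Δ ^ 2 := by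
    rw [h2, h1, hφp]; ring
  have hpΔ : (p * Δ) ^ 2 ≤ L ^ 2 * Δ ^ 2 := by
    rw [mul_pow]
    gcongr
  constructor
  · by_contra hcon
    push Not at hcon
    have h3 : W ^ 2 < (φ - p * Δ) ^ 2 := by
      have : 0 ≤ W := by linarith
      gcongr
    nlinarith
  · by_contra hcon
    push Not at hcon
    have hA : 0 ≤ φ - p * Δ + L ^ 2 / 2 * Δ ^ 2 := by
      nlinarith [sq_nonneg (p * Δ - 1)]
    have h3 : (φ - p * Δ + L ^ 2 / 2 * Δ ^ 2) ^ 2 < W ^ 2 := by gcongr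
    have h4 : 0 ≤ (φ - 1) * (L ^ 2 * Δ ^ 2) := mul_nonneg (by linarith) (by positivity)
    nlinarith [sq_nonneg (p * Δ - L ^ 2 * Δ ^ 2 / 2)]

/-- abbreviations for the increments -/
noncomputable def Dg (h : ℝ) : ℝ := gam - G1 (1 - h)
noncomputable def Dt (h : ℝ) : ℝ := gam - th (1 - h)
noncomputable def DW (h : ℝ) : ℝ := phi - ww Lam (1 - h)
noncomputable def pp : ℝ := Lam ^ 2 * gam / phi

lemma Dg_eq {h : ℝ} (h0 : 0 ≤ h) (h1 : h ≤ 1) : Dg h = (kap - gam) * h - RR h := G1_expand h0 h1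

lemma Dt_eq (h : ℝ) : Dt h = h * gam + (1 - h) * Dg h := by
  unfold Dt Dg th
  ring

lemma Dg_ge {h : ℝ} (h0 : 0 ≤ h) (h1 : h ≤ 1) : h / 64 ≤ Dg h := by
  have hs := summable_G1 (s := 1 - h) (by linarith) (by linarith)
  have e1 : Dg h = ∑' n, (un n - (1 - h) ^ n * un n) := by
    unfold Dg gam
    rw [summable_un.tsum_sub hs, G1_one]
    rfl
  rw [e1]
  have h2 := (summable_un.sub hs).le_tsum 1 (by
    intro n _
    have h3 : (1 - h) ^ n ≤ 1 := pow_le_one₀ (by linarith) (by linarith)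
    have h4 := un_pos n
    nlinarith)
  rw [un_one, pow_one] at h2
  linarith

lemma Dg_le {h : ℝ} (h0 : 0 ≤ h) (h1 : h ≤ 1) : Dg h ≤ (kap - gam) * h := by
  rw [Dg_eq h0 h1]
  have := RR_nonneg h0 h1
  linarith

lemma Dg_nonneg {h : ℝ} (h0 : 0 ≤ h) (h1 : h ≤ 1) : 0 ≤ Dg h := by
  have := Dg_ge h0 h1
  linarith

lemma Dt_nonneg {h : ℝ} (h0 : 0 ≤ h) (h1 : h ≤ 1) : 0 ≤ Dt h := by
  rw [Dt_eq]
  have h2 := Dg_nonneg h0 h1
  have h3 := gam_ge_one
  have h4 : 0 ≤ 1 - h := by linarith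
  positivity

lemma Dt_le {h : ℝ} (h0 : 0 ≤ h) (h1 : h ≤ 1) : Dt h ≤ kap * h := by
  rw [Dt_eq]
  have h2 := Dg_nonneg h0 h1
  have h3 := Dg_le h0 h1
  nlinarith

lemma DW_bounds {h : ℝ} (_h0 : 0 ≤ h) (_h1 : h < 1) :
    pp * Dt h - Lam ^ 2 / 2 * Dt h ^ 2 ≤ DW h ∧ DW h ≤ pp * Dt h := by
  have h2 := gam_ge_one
  have h3 := phi_gt
  have h4 : phi ^ 2 = 1 + Lam ^ 2 * gam ^ 2 := by
    have := Lam_gam_sq
    rw [mul_pow] at this
    linarith
  have h5 : ww Lam (1 - h) ^ 2 = 1 + Lam ^ 2 * (gam - Dt h) ^ 2 := by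
    rw [ww_sq]
    unfold Dt
    ring
  have h6 := W_bounds Lam_pos (by linarith : 0 < gam) h3.le (ww_ge_one Lam (1 - h)) h4 h5
  unfold DW pp
  constructor
  · linarith [h6.2]
  · linarith [h6.1]

lemma gam_pp : gam * pp = phi - (1 - qq) := by
  have h3 := phi_gt
  rw [← phi_inv]
  unfold pp
  have h4 := Lam_gam_sq
  have h5 : phi ≠ 0 := by linarith
  rw [mul_pow] at h4
  field_simp
  linarith

lemma pp_pos : 0 < pp := by
  have := gam_ge_one
  have := phi_gt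
  have := Lam_pos
  unfold pp
  positivity

/-- the numerator -/
noncomputable def NN (h : ℝ) : ℝ := Dt h * (gam + phi - 1) - gam * (Dg h + DW h)

lemma key_id {h : ℝ} (h0 : 0 ≤ h) (h1 : h ≤ 1) :
    Dt h * (gam - qq) - gam * Dg h = qq * RR h - h * (gam - qq) * Dg h := by
  rw [Dt_eq]
  have h2 := Dg_eq h0 h1
  have h3 := qq_kap
  linear_combination (-qq) * h2 - h * h3

lemma NN_ge {h : ℝ} (h0 : 0 ≤ h) (h1 : h < 1) : qq * RR h - gam * kap * h ^ 2 ≤ NN h := by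
  have h2 := (DW_bounds h0 h1).2
  have h3 := key_id h0 h1.le
  have h4 := gam_pp
  have h5 := gam_ge_one
  have h6 : gam * DW h ≤ gam * (pp * Dt h) := by gcongr
  have h7 : gam * (pp * Dt h) = (phi - (1 - qq)) * Dt h := by rw [← h4]; ring
  have h8 := Dg_nonneg h0 h1.le
  have h9 := Dg_le h0 h1.le
  have h10 := qq_pos
  have h11 : h * (gam - qq) * Dg h ≤ gam * kap * h ^ 2 := by
    have a1 : h * (gam - qq) * Dg h ≤ h * gam * Dg h := by
      have : h * (gam - qq) ≤ h * gam := by nlinarith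
      gcongr
    have a2 : Dg h ≤ kap * h := by nlinarith
    calc h * (gam - qq) * Dg h ≤ h * gam * Dg h := a1
      _ ≤ h * gam * (kap * h) := by gcongr
      _ = _ := by ring
  unfold NN
  nlinarith

lemma NN_le {h : ℝ} (h0 : 0 ≤ h) (h1 : h < 1) :
    NN h ≤ qq * RR h + gam * (Lam ^ 2 / 2) * kap ^ 2 * h ^ 2 := by
  have h2 := (DW_bounds h0 h1).1
  have h3 := key_id h0 h1.le
  have h4 := gam_pp
  have h5 := gam_ge_one
  have h6 : gam * (pp * Dt h - Lam ^ 2 / 2 * Dt h ^ 2) ≤ gam * DW h := by gcongr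
  have h7 : gam * (pp * Dt h) = (phi - (1 - qq)) * Dt h := by rw [← h4]; ring
  have h8 := Dg_nonneg h0 h1.le
  have h10 := qq_pos
  have h12 := qq_lt
  have h11 : 0 ≤ h * (gam - qq) * Dg h := by
    have : 0 ≤ gam - qq := by linarith
    positivity
  have h13 : gam * (Lam ^ 2 / 2 * Dt h ^ 2) ≤ gam * (Lam ^ 2 / 2) * kap ^ 2 * h ^ 2 := by
    have a1 := Dt_nonneg h0 h1.le
    have a2 := Dt_le h0 h1.le
    calc gam * (Lam ^ 2 / 2 * Dt h ^ 2) ≤ gam * (Lam ^ 2 / 2 * (kap * h) ^ 2) := by gcongr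
      _ = _ := by ring
  unfold NN
  nlinarith

/-- relative deviation of the spectral parameter -/
noncomputable def eps (h : ℝ) : ℝ := 1 - zz Lam (1 - h) / zz Lam 1

lemma GG_one : GG Lam 1 = gam + phi - 1 := by
  unfold GG
  rw [ww_one]
  rfl

lemma eps_eq {h : ℝ} (h0 : 0 ≤ h) (h1 : h < 1) : eps h * (gam * GG Lam (1 - h)) = NN h := by
  have h2 := GG_ge_one (Λ := Lam) (s := 1 - h) (by linarith) (by linarith)
  have h3 := GG_ge_one (Λ := Lam) (s := 1) one_pos le_rfl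
  have h4 := gam_ge_one
  have h5 := Lam_pos
  have h6 : GG Lam (1 - h) = (gam + phi - 1) - (Dg h + DW h) := by
    unfold GG Dg DW
    ring
  have h7 : th (1 - h) = gam - Dt h := by unfold Dt; ring
  have e : eps h = 1 - (th (1 - h) * GG Lam 1) / (gam * GG Lam (1 - h)) := by
    unfold eps zz
    rw [th_one]
    have : (1 + Lam) ≠ 0 := by linarith
    have : gam ≠ 0 := by linarith
    have : GG Lam (1 - h) ≠ 0 := by linarith
    have : GG Lam 1 ≠ 0 := by linarith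
    field_simp
  have h8 : gam * GG Lam (1 - h) ≠ 0 := by
    have : 0 < gam * GG Lam (1 - h) := by positivity
    exact this.ne'
  rw [e, sub_mul, div_mul_cancel₀ _ h8, GG_one, h7]
  unfold NN
  rw [h6]
  ring

lemma GG_mono {h : ℝ} (h0 : 0 ≤ h) (h1 : h < 1) : GG Lam (1 - h) ≤ GG Lam 1 := by
  unfold GG
  have := G1_mono (s := 1 - h) (by linarith) (by linarith)
  have := ww_mono (s := 1 - h) Lam_pos (by linarith) (by linarith)
  linarith

/-- (i) -/
theorem eps_ge (K : ℝ) (hK : 0 ≤ K) :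
    ∃ h0 : ℝ, 0 < h0 ∧ h0 < 1 ∧ ∀ h, 0 < h → h ≤ h0 → K * h ^ 2 ≤ eps h := by
  have hq := qq_pos
  have hg := gam_ge_one
  have hG := GG_ge_one (Λ := Lam) (s := 1) one_pos le_rfl
  obtain ⟨h0, h0pos, h01, hh⟩ := RR_ge ((K * (gam * GG Lam 1) + gam * kap) / qq)
  refine ⟨h0 / 2, by positivity, by linarith, ?_⟩
  intro h hpos hle
  have hlt : h < 1 := by linarith
  have h2 := hh h hpos (by linarith)
  have h3 := NN_ge hpos.le hlt
  have h4 := eps_eq hpos.le hlt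
  have h5 : (K * (gam * GG Lam 1) + gam * kap) * h ^ 2 ≤ qq * RR h := by
    have : qq * ((K * (gam * GG Lam 1) + gam * kap) / qq * h ^ 2) ≤ qq * RR h := by gcongr
    calc (K * (gam * GG Lam 1) + gam * kap) * h ^ 2
        = qq * ((K * (gam * GG Lam 1) + gam * kap) / qq * h ^ 2) := by field_simp
      _ ≤ _ := this
  have h6 : K * (gam * GG Lam 1) * h ^ 2 ≤ eps h * (gam * GG Lam (1 - h)) := by
    rw [h4]
    linarith
  have h7 := GG_ge_one (Λ := Lam) (s := 1 - h) (by linarith) (by linarith)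
  have h8 := GG_mono hpos.le hlt
  have h9 : K * h ^ 2 * (gam * GG Lam (1 - h)) ≤ eps h * (gam * GG Lam (1 - h)) := by
    calc K * h ^ 2 * (gam * GG Lam (1 - h)) ≤ K * h ^ 2 * (gam * GG Lam 1) := by gcongr
      _ = K * (gam * GG Lam 1) * h ^ 2 := by ring
      _ ≤ _ := h6
  exact le_of_mul_le_mul_right h9 (by positivity)

/-- (ii) -/
theorem eps_le {η : ℝ} (hη : 0 < η) (hη1 : η < 1) :
    ∃ C : ℝ, 0 < C ∧ ∀ h, 0 < h → h < 1 → eps h ≤ C * h ^ (2 - η) := by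
  obtain ⟨C, hC, hh⟩ := RR_le hη hη1
  have hq := qq_pos
  have hg := gam_ge_one
  have hk := kap_pos
  refine ⟨qq * C + gam * (Lam ^ 2 / 2) * kap ^ 2, by positivity, ?_⟩
  intro h hpos hlt
  have h1 := hh h hpos hlt.le
  have h2 := NN_le hpos.le hlt
  have h3 := eps_eq hpos.le hlt
  have h4 := GG_ge_one (Λ := Lam) (s := 1 - h) (by linarith) (by linarith)
  have h5 : h ^ 2 ≤ h ^ (2 - η) := by
    rw [← Real.rpow_natCast]
    exact Real.rpow_le_rpow_of_exponent_ge hpos hlt.le (by push_cast; linarith)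
  have h6 : 0 < h ^ (2 - η) := by positivity
  have h7 : NN h ≤ (qq * C + gam * (Lam ^ 2 / 2) * kap ^ 2) * h ^ (2 - η) := by
    calc NN h ≤ qq * RR h + gam * (Lam ^ 2 / 2) * kap ^ 2 * h ^ 2 := h2
      _ ≤ qq * (C * h ^ (2 - η)) + gam * (Lam ^ 2 / 2) * kap ^ 2 * h ^ (2 - η) := by gcongr
      _ = _ := by ring
  rw [← h3] at h7
  rcases le_total (eps h) 0 with h8 | h8
  · refine h8.trans ?_
    positivity
  · refine le_trans ?_ h7
    have h9 : 1 ≤ gam * GG Lam (1 - h) := by nlinarith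
    nlinarith

/-- the increment of the Green function -/
noncomputable def dlt (h : ℝ) : ℝ := GG Lam 1 - GG Lam (1 - h)

theorem dlt_ge {h : ℝ} (h0 : 0 ≤ h) (h1 : h < 1) : h / 64 ≤ dlt h := by
  unfold dlt GG
  have h2 := Dg_ge h0 h1.le
  unfold Dg gam at h2
  have h3 := ww_mono (s := 1 - h) Lam_pos (by linarith) (by linarith)
  linarith

theorem dlt_le {h : ℝ} (h0 : 0 ≤ h) (h1 : h < 1) : dlt h ≤ (kap + pp * kap) * h := by
  have h2 : dlt h = Dg h + DW h := by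
    unfold dlt Dg DW
    rw [GG_one]
    unfold GG
    ring
  rw [h2]
  have h3 := Dg_le h0 h1.le
  have h4 := (DW_bounds h0 h1).2
  have h5 := Dt_le h0 h1.le
  have h6 := pp_pos
  have h7 := gam_ge_one
  have h8 : pp * Dt h ≤ pp * (kap * h) := by gcongr
  nlinarith

end Pool.Agent.H977_rd
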