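import Mathlib

set_option autoImplicit false
open Finset Filter Topology

namespace Pool.Agent.H977_rd

lemma one_sub_pow_ge {ep : ℝ} (h0 : 0 < ep) (h1 : ep < 1) {M n : ℕ} (hM : 1 / ep ≤ M) (hn : M ≤ n) :
    1 / 2 ≤ 1 - (1 - ep) ^ n := by
  have h2 : (1 - ep) ^ n ≤ (1 - ep) ^ M := pow_le_pow_of_le_one (by linarith) (by linarith) hn
  have h3 : 1 + M * ep ≤ (1 + ep) ^ M := one_add_mul_le_pow (by linarith) M
  have h4 : 1 ≤ M * ep := by
    rw [div_le_iff₀ h0] at hM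
    exact hM
  have h5 : (1 - ep) ^ M * (1 + ep) ^ M ≤ 1 := by
    rw [← mul_pow]
    apply pow_le_one₀
    · nlinarith
    · nlinarith
  have h6 : 0 ≤ (1 - ep) ^ M := pow_nonneg (by linarith) M
  nlinarith

/-- Case A: heavy tails force a large increment -/
lemma caseA (b : ℕ → ℝ) (hb0 : ∀ n, 0 ≤ b n) (ep dl : ℝ → ℝ)
    (hpos : ∀ᶠ h in 𝓝[>] (0:ℝ), 0 < ep h ∧ ep h < 1)
    (hsum : ∀ᶠ h in 𝓝[>] (0:ℝ), HasSum (fun n => b n * (1 - (1 - ep h) ^ n)) (dl h))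
    (hep0 : Tendsto ep (𝓝[>] 0) (𝓝 0))
    (hup : ∃ C : ℝ, 0 < C ∧ ∀ᶠ h in 𝓝[>] (0:ℝ), dl h ≤ C * h)
    (hK : ∀ K : ℝ, 0 ≤ K → ∀ᶠ h in 𝓝[>] (0:ℝ), K * h ^ 2 ≤ ep h)
    (hA : ∃ c : ℝ, 0 < c ∧ ∀ᶠ k : ℕ in atTop, c / (k * √k) ≤ b (2 * k)) : False := by
  obtain ⟨c, hc, hA⟩ := hA
  obtain ⟨C, hC, hup⟩ := hup
  obtain ⟨k0, hk0⟩ := eventually_atTop.1 hA
  have hsmall : ∀ᶠ h in 𝓝[>] (0:ℝ), ep h < 1 / ((k0:ℝ) + 1) :=
    hep0.eventually_lt_const (by positivity)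
  have hself : ∀ᶠ h in 𝓝[>] (0:ℝ), (0:ℝ) < h := eventually_mem_nhdsWithin
  obtain ⟨h, ⟨h1, h2⟩, h3, h4, h5, h6, h7⟩ := (hpos.and (hsum.and (hup.and
    ((hK ((8 * C / c + 1) ^ 2) (by positivity)).and (hsmall.and hself))))).exists
  set e := ep h with he
  set M := ⌈1 / e⌉₊ with hM
  have hM1 : 1 / e ≤ M := Nat.le_ceil _
  have hM2 : (M:ℝ) < 1 / e + 1 := Nat.ceil_lt_add_one (by positivity)
  have hM3 : (M:ℝ) ≤ 2 / e := by
    have : 1 ≤ 1 / e := by rw [le_div_iff₀ h1]; linarith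
    have e2 : 2 / e = 1 / e + 1 / e := by ring
    rw [e2]; linarith
  have hMk : k0 ≤ M := by
    have a1 : (k0:ℝ) + 1 < 1 / e := by
      rw [lt_div_iff₀ (by positivity)] at h6
      rw [lt_div_iff₀ h1]
      linarith
    have a2 : (k0:ℝ) ≤ M := by linarith
    exact_mod_cast a2
  have hMpos : (0:ℝ) < M := by
    have : 0 < 1 / e := by positivity
    linarith
  -- lower bound of the sum
  have hlow : ∑ k ∈ Ico M (2 * M), (c / (2 * M * √(2 * M))) * (1 / 2) ≤ dl h := by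
    have hinj : Set.InjOn (fun k : ℕ => 2 * k) (Ico M (2 * M) : Finset ℕ) := by
      intro a _ b _ hab
      simpa using hab
    have a1 : ∑ n ∈ (Ico M (2 * M)).image (fun k => 2 * k), b n * (1 - (1 - e) ^ n) ≤ dl h := by
      refine sum_le_hasSum _ ?_ h3
      intro n _
      refine mul_nonneg (hb0 n) ?_
      have : (1 - e) ^ n ≤ 1 := pow_le_one₀ (by linarith) (by linarith)
      linarith
    rw [Finset.sum_image hinj] at a1
    refine le_trans ?_ a1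
    refine Finset.sum_le_sum ?_
    intro k hk
    rw [mem_Ico] at hk
    have a2 := hk0 k (by omega)
    have a3 := one_sub_pow_ge h1 h2 (n := 2 * k) hM1 (by omega)
    have hkM : (k:ℝ) ≤ 2 * M := by exact_mod_cast hk.2.le
    have hkpos : (0:ℝ) < k := by
      have : (M:ℝ) ≤ k := by exact_mod_cast hk.1
      linarith
    have a4 : c / (2 * M * √(2 * M)) ≤ c / (k * √k) := by
      have : (k:ℝ) * √k ≤ 2 * M * √(2 * M) := by
        have := Real.sqrt_le_sqrt hkM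
        gcongr
      gcongr
    exact mul_le_mul (a4.trans a2) a3 (by norm_num) (hb0 _)
  rw [Finset.sum_const, Nat.card_Ico, nsmul_eq_mul] at hlow
  have hcard : ((2 * M - M : ℕ) : ℝ) = M := by
    have : 2 * M - M = M := by omega
    rw [this]
  rw [hcard] at hlow
  -- M * (c / (2M √(2M))) / 2 = c / (4 √(2M)) ≥ c √e / 8
  have hsq : √(2 * M) ≤ 2 / √e := by
    rw [Real.sqrt_le_left (by positivity), div_pow, Real.sq_sqrt h1.le]
    have : 2 * (M:ℝ) ≤ 2 * (2 / e) := by linarith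
    calc 2 * (M:ℝ) ≤ 2 * (2 / e) := this
      _ = 2 ^ 2 / e := by ring
  have hse : 0 < √e := Real.sqrt_pos.2 h1
  have hsM : 0 < √(2 * (M:ℝ)) := Real.sqrt_pos.2 (by positivity)
  have hlow2 : c * √e / 8 ≤ dl h := by
    refine le_trans ?_ hlow
    have a5 : (M:ℝ) * (c / (2 * M * √(2 * M)) * (1 / 2)) = c / (4 * √(2 * M)) := by
      field_simp
      norm_num
    rw [a5, div_le_div_iff₀ (by norm_num) (by positivity)]
    have a6 : √e * √(2 * M) ≤ 2 := by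
      calc √e * √(2 * M) ≤ √e * (2 / √e) := by gcongr
        _ = 2 := by field_simp
    nlinarith
  have hlow3 : (8 * C / c + 1) * h ≤ √e := by
    apply Real.le_sqrt_of_sq_le
    rw [mul_pow]
    exact h5
  have : c * ((8 * C / c + 1) * h) / 8 ≤ C * h := by
    calc c * ((8 * C / c + 1) * h) / 8 ≤ c * √e / 8 := by gcongr
      _ ≤ dl h := hlow2
      _ ≤ C * h := h4
  have e3 : c * ((8 * C / c + 1) * h) / 8 = C * h + c * h / 8 := by
    field_simp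
  rw [e3] at this
  have : 0 < c * h / 8 := by positivity
  linarith

/-- Case B: light tails force a small increment -/
lemma caseB (b : ℕ → ℝ) (hb0 : ∀ n, 0 ≤ b n) (ep dl : ℝ → ℝ)
    (hpos : ∀ᶠ h in 𝓝[>] (0:ℝ), 0 < ep h ∧ ep h < 1)
    (hsum : ∀ᶠ h in 𝓝[>] (0:ℝ), HasSum (fun n => b n * (1 - (1 - ep h) ^ n)) (dl h))
    (hlow : ∃ c : ℝ, 0 < c ∧ ∀ᶠ h in 𝓝[>] (0:ℝ), c * h ≤ dl h)
    (hη : ∀ η : ℝ, 0 < η → η < 1 → ∃ C : ℝ, 0 < C ∧ ∀ᶠ h in 𝓝[>] (0:ℝ), ep h ≤ C * h ^ (2 - η))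
    {σ : ℝ} (hσ : 0 < σ) (hσ1 : σ < 1 / 4)
    (hB : ∃ C : ℝ, 0 < C ∧ ∀ n : ℕ, b n ≤ C * ((n:ℝ) + 1) ^ (-(3 / 2 + 2 * σ))) : False := by
  obtain ⟨C, hC, hB⟩ := hB
  obtain ⟨c, hc, hlow⟩ := hlow
  obtain ⟨C1, hC1, hη⟩ := hη σ hσ (by linarith)
  set τ : ℝ := 1 / 2 + σ with hτ
  have hτ0 : 0 < τ := by rw [hτ]; linarith
  have hτ1 : τ ≤ 1 := by rw [hτ]; linarith
  have hS : Summable (fun n : ℕ => b n * (n:ℝ) ^ τ) := by
    have h3 : Summable (fun n : ℕ => C * (1 / ((n:ℝ) + 1) ^ (1 + σ))) := by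
      have h4 := (summable_nat_add_iff 1).2
        ((Real.summable_one_div_nat_rpow (p := 1 + σ)).2 (by linarith))
      refine (h4.congr ?_).mul_left C
      intro n
      push_cast
      rfl
    refine Summable.of_nonneg_of_le (fun n => mul_nonneg (hb0 n) (by positivity)) ?_ h3
    intro n
    have hn1 : (0:ℝ) < (n:ℝ) + 1 := by positivity
    calc b n * (n:ℝ) ^ τ ≤ (C * ((n:ℝ) + 1) ^ (-(3 / 2 + 2 * σ))) * ((n:ℝ) + 1) ^ τ := by
          have a1 : (n:ℝ) ^ τ ≤ ((n:ℝ) + 1) ^ τ :=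
            Real.rpow_le_rpow (by positivity) (by linarith) hτ0.le
          have a2 := hB n
          have a3 := hb0 n
          gcongr
      _ = C * (1 / ((n:ℝ) + 1) ^ (1 + σ)) := by
          rw [mul_assoc, ← Real.rpow_add hn1, one_div, ← Real.rpow_neg hn1.le]
          congr 2
          rw [hτ]
          ring
  set S := ∑' n : ℕ, b n * (n:ℝ) ^ τ with hSdef
  have hS0 : 0 ≤ S := tsum_nonneg (fun n => mul_nonneg (hb0 n) (by positivity))
  -- exponent bookkeeping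
  set κ : ℝ := (2 - σ) * τ - 1 with hκ
  have hκ0 : 0 < κ := by
    rw [hκ, hτ]
    nlinarith
  have hself : ∀ᶠ h in 𝓝[>] (0:ℝ), (0:ℝ) < h := eventually_mem_nhdsWithin
  have hsmall : ∀ᶠ h in 𝓝[>] (0:ℝ), h ^ κ < c / ((S + 1) * C1 ^ τ) := by
    have h8 : Tendsto (fun h : ℝ => h ^ κ) (𝓝[>] 0) (𝓝 0) := by
      have : Tendsto (fun h : ℝ => h ^ κ) (𝓝 0) (𝓝 ((0:ℝ) ^ κ)) :=
        (Real.continuousAt_rpow_const 0 κ (Or.inr hκ0.le)).tendsto
      rw [Real.zero_rpow hκ0.ne'] at this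
      exact this.mono_left nhdsWithin_le_nhds
    exact h8.eventually_lt_const (by positivity)
  obtain ⟨h, ⟨h1, h2⟩, h3, h4, h5, h6, h7⟩ := (hpos.and (hsum.and (hlow.and
    (hη.and (hsmall.and hself))))).exists
  set e := ep h with he
  have hup : dl h ≤ e ^ τ * S := by
    have hterm : ∀ n : ℕ, b n * (1 - (1 - e) ^ n) ≤ e ^ τ * (b n * (n:ℝ) ^ τ) := by
      intro n
      have a1 : 1 - (1 - e) ^ n ≤ ((n:ℝ) * e) ^ τ := by
        have a2 : 1 - (1 - e) ^ n ≤ n * e := by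
          have := one_add_mul_le_pow (by linarith : (-2:ℝ) ≤ -e) n
          have e' : (1 + -e) = 1 - e := by ring
          rw [e'] at this
          linarith
        have a3 : 1 - (1 - e) ^ n ≤ 1 := by
          have : 0 ≤ (1 - e) ^ n := pow_nonneg (by linarith) n
          linarith
        have hne : 0 ≤ (n:ℝ) * e := by positivity
        rcases le_total ((n:ℝ) * e) 1 with a4 | a4
        · refine a2.trans ?_
          rcases hne.eq_or_lt with a5 | a5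
          · rw [← a5, Real.zero_rpow hτ0.ne']
          · calc (n:ℝ) * e = ((n:ℝ) * e) ^ (1:ℝ) := (Real.rpow_one _).symm
              _ ≤ ((n:ℝ) * e) ^ τ := Real.rpow_le_rpow_of_exponent_ge a5 a4 hτ1
        · exact a3.trans (Real.one_le_rpow a4 hτ0.le)
      rw [Real.mul_rpow (by positivity) h1.le] at a1
      have a6 := hb0 n
      calc b n * (1 - (1 - e) ^ n) ≤ b n * ((n:ℝ) ^ τ * e ^ τ) := by gcongr
        _ = _ := by ring
    have hs2 := hS.hasSum.mul_left (e ^ τ)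
    exact hasSum_le hterm h3 hs2
  have h9 : e ^ τ ≤ C1 ^ τ * h ^ (κ + 1) := by
    calc e ^ τ ≤ (C1 * h ^ (2 - σ)) ^ τ := Real.rpow_le_rpow h1.le h5 hτ0.le
      _ = C1 ^ τ * h ^ (κ + 1) := by
          rw [Real.mul_rpow hC1.le (by positivity), ← Real.rpow_mul h7.le]
          congr 2
          rw [hκ]; ring
  have h10 : h ^ (κ + 1) = h ^ κ * h := by
    rw [Real.rpow_add h7, Real.rpow_one]
  have h11 : c * h ≤ (C1 ^ τ * (h ^ κ * h)) * (S + 1) := by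
    calc c * h ≤ dl h := h4
      _ ≤ e ^ τ * S := hup
      _ ≤ (C1 ^ τ * (h ^ κ * h)) * S := by rw [← h10]; gcongr
      _ ≤ (C1 ^ τ * (h ^ κ * h)) * (S + 1) := by
          have : 0 ≤ C1 ^ τ * (h ^ κ * h) := by positivity
          nlinarith
  rw [lt_div_iff₀ (by positivity)] at h6
  have h12 : (C1 ^ τ * (h ^ κ * h)) * (S + 1) = (h ^ κ * ((S + 1) * C1 ^ τ)) * h := by ring
  rw [h12] at h11
  have h13 : c ≤ h ^ κ * ((S + 1) * C1 ^ τ) := le_of_mul_le_mul_right h11 h7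
  linarith

/-- power law times exponential either dominates `k^(-3/2)` or is `O(k^(-3/2-2σ))` -/
lemma dichotomy (d β : ℝ) (hβ : 0 ≤ β) :
    (∀ᶠ k : ℕ in atTop, 1 / (k * √k) ≤ (k:ℝ) ^ (-d) * β ^ k) ∨
    (∃ σ : ℝ, 0 < σ ∧ σ < 1 / 4 ∧
      ∀ᶠ k : ℕ in atTop, (k:ℝ) ^ (-d) * β ^ k ≤ (k:ℝ) ^ (-(3 / 2 + 2 * σ))) := by
  have hkk : ∀ k : ℕ, 0 < k → 1 / ((k:ℝ) * √k) = (k:ℝ) ^ (-(3/2 : ℝ)) := by
    intro k hk
    have hk' : (0:ℝ) < k := by exact_mod_cast hk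
    rw [Real.rpow_neg hk'.le, one_div]
    congr 1
    rw [Real.sqrt_eq_rpow]
    nth_rewrite 1 [← Real.rpow_one (k:ℝ)]
    rw [← Real.rpow_add hk']
    norm_num
  rcases lt_trichotomy β 1 with hlt | heq | hgt
  · right
    refine ⟨1 / 8, by norm_num, by norm_num, ?_⟩
    obtain ⟨m, hm⟩ := exists_nat_ge (2 - d)
    have h1 := tendsto_pow_const_mul_const_pow_of_lt_one m hβ hlt
    filter_upwards [h1.eventually_le_const (show (0:ℝ) < 1 by norm_num), eventually_gt_atTop 0]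
      with k hk hk0
    have hk' : (1:ℝ) ≤ k := by exact_mod_cast hk0
    have hk'' : (0:ℝ) < k := by linarith
    calc (k:ℝ) ^ (-d) * β ^ k ≤ (k:ℝ) ^ ((m:ℝ) - 2) * β ^ k := by
          have := Real.rpow_le_rpow_of_exponent_le hk' (by linarith : -d ≤ (m:ℝ) - 2)
          have := pow_nonneg hβ k
          gcongr
      _ = (k:ℝ) ^ (-2 : ℝ) * ((k:ℝ) ^ m * β ^ k) := by
          rw [← mul_assoc]
          congr 1
          rw [← Real.rpow_natCast (k:ℝ) m, ← Real.rpow_add hk'']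
          congr 1
          ring
      _ ≤ (k:ℝ) ^ (-2 : ℝ) * 1 := by
          have : 0 ≤ (k:ℝ) ^ (-2 : ℝ) := by positivity
          gcongr
      _ ≤ (k:ℝ) ^ (-(3 / 2 + 2 * (1 / 8)) : ℝ) := by
          rw [mul_one]
          exact Real.rpow_le_rpow_of_exponent_le hk' (by norm_num)
  · subst heq
    rcases le_or_gt d (3 / 2) with hd | hd
    · left
      filter_upwards [eventually_gt_atTop 0] with k hk0
      have hk' : (1:ℝ) ≤ k := by exact_mod_cast hk0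
      rw [hkk k hk0, one_pow, mul_one]
      exact Real.rpow_le_rpow_of_exponent_le hk' (by linarith)
    · right
      refine ⟨min ((d - 3 / 2) / 2) (1 / 8), by positivity, ?_, ?_⟩
      · exact lt_of_le_of_lt (min_le_right _ _) (by norm_num)
      · filter_upwards [eventually_gt_atTop 0] with k hk0
        have hk' : (1:ℝ) ≤ k := by exact_mod_cast hk0
        rw [one_pow, mul_one]
        apply Real.rpow_le_rpow_of_exponent_le hk'
        have := min_le_left ((d - 3 / 2) / 2) (1 / 8)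
        linarith
  · left
    obtain ⟨m, hm⟩ := exists_nat_ge (d - 3 / 2)
    have h1 := tendsto_pow_const_div_const_pow_of_one_lt m hgt
    filter_upwards [h1.eventually_le_const (show (0:ℝ) < 1 by norm_num), eventually_gt_atTop 0]
      with k hk hk0
    have hk' : (1:ℝ) ≤ k := by exact_mod_cast hk0
    have hk'' : (0:ℝ) < k := by linarith
    rw [hkk k hk0]
    have hβk : 0 < β ^ k := by positivity
    rw [div_le_one hβk] at hk
    calc (k:ℝ) ^ (-(3/2 : ℝ)) = (k:ℝ) ^ (-(3/2 : ℝ) - m) * (k:ℝ) ^ m := by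
          rw [← Real.rpow_natCast (k:ℝ) m, ← Real.rpow_add hk'']
          congr 1
          ring
      _ ≤ (k:ℝ) ^ (-d) * β ^ k := by
          have := Real.rpow_le_rpow_of_exponent_le hk' (by linarith : -(3/2 : ℝ) - m ≤ -d)
          gcongr

/-- The Tauberian contradiction. -/
theorem no_power_law (b : ℕ → ℝ) (hb0 : ∀ n, 0 ≤ b n)
    (hodd : ∃ C : ℝ, 0 < C ∧ ∀ n, b n ≤ C * b (n + 1)) (ep dl : ℝ → ℝ)
    (hpos : ∀ᶠ h in 𝓝[>] (0:ℝ), 0 < ep h ∧ ep h < 1)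
    (hsum : ∀ᶠ h in 𝓝[>] (0:ℝ), HasSum (fun n => b n * (1 - (1 - ep h) ^ n)) (dl h))
    (hep0 : Tendsto ep (𝓝[>] 0) (𝓝 0))
    (hup : ∃ C : ℝ, 0 < C ∧ ∀ᶠ h in 𝓝[>] (0:ℝ), dl h ≤ C * h)
    (hlow : ∃ c : ℝ, 0 < c ∧ ∀ᶠ h in 𝓝[>] (0:ℝ), c * h ≤ dl h)
    (hK : ∀ K : ℝ, 0 ≤ K → ∀ᶠ h in 𝓝[>] (0:ℝ), K * h ^ 2 ≤ ep h)
    (hη : ∀ η : ℝ, 0 < η → η < 1 → ∃ C : ℝ, 0 < C ∧ ∀ᶠ h in 𝓝[>] (0:ℝ), ep h ≤ C * h ^ (2 - η))
    (c d β : ℝ) (hc : 0 < c) (hβ : 0 ≤ β) :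
    ¬ Asymptotics.IsEquivalent atTop (fun n : ℕ => b (2 * n))
      (fun n : ℕ => c * ((n:ℝ) ^ (-d) * β ^ n)) := by
  intro heq
  have hnn : ∀ n : ℕ, 0 ≤ c * ((n:ℝ) ^ (-d) * β ^ n) := by intro n; positivity
  have hlittle := heq.isLittleO
  have hhalf := hlittle.def (show (0:ℝ) < 1 / 2 by norm_num)
  rcases dichotomy d β hβ with hA | ⟨σ, hσ, hσ1, hB⟩
  · refine caseA b hb0 ep dl hpos hsum hep0 hup hK ⟨c / 2, by positivity, ?_⟩
    filter_upwards [hhalf, hA] with k h1 h2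
    rw [Pi.sub_apply, Real.norm_eq_abs, Real.norm_of_nonneg (hnn k), abs_le] at h1
    have h3 : c / 2 / (k * √k) = c / 2 * (1 / (k * √k)) := by ring
    rw [h3]
    have h4 : c / 2 * (1 / (k * √k)) ≤ c / 2 * ((k:ℝ) ^ (-d) * β ^ k) := by gcongr
    linarith [h1.1]
  · refine caseB b hb0 ep dl hpos hsum hlow hη hσ hσ1 ?_
    obtain ⟨C, hC, hodd⟩ := hodd
    have hev : ∀ᶠ k : ℕ in atTop, b (2 * k) ≤ (2 * c) * (k:ℝ) ^ (-(3 / 2 + 2 * σ)) := by
      filter_upwards [hhalf, hB] with k h1 h2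
      rw [Pi.sub_apply, Real.norm_eq_abs, Real.norm_of_nonneg (hnn k), abs_le] at h1
      have h4 : c * ((k:ℝ) ^ (-d) * β ^ k) ≤ c * (k:ℝ) ^ (-(3 / 2 + 2 * σ)) := by gcongr
      have h5 : 0 ≤ (k:ℝ) ^ (-(3 / 2 + 2 * σ)) := by positivity
      nlinarith [h1.2]
    obtain ⟨k0, hk0⟩ := eventually_atTop.1 hev
    -- bound for all `n ≥ 2 k0 + 1`
    set t : ℝ := 3 / 2 + 2 * σ with ht
    have ht0 : 0 < t := by rw [ht]; linarith
    have hk0' : ∀ k : ℕ, k0 + 1 ≤ k → ∀ n : ℕ, n + 1 ≤ 2 * k + 1 →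
        b (2 * k) ≤ (2 * c) * 4 ^ t * ((n:ℝ) + 1) ^ (-t) := by
      intro k hk n hn
      have hkpos : (0:ℝ) < k := by exact_mod_cast (by omega : 0 < k)
      refine (hk0 k (by omega)).trans ?_
      have h6 : ((n:ℝ) + 1) / 4 ≤ k := by
        have h7 : ((n:ℝ) + 1) ≤ 2 * k + 1 := by exact_mod_cast hn
        have h8 : (1:ℝ) ≤ k := by exact_mod_cast (by omega : 1 ≤ k)
        linarith
      have h9 : (k:ℝ) ^ (-t) ≤ (((n:ℝ) + 1) / 4) ^ (-t) :=
        Real.rpow_le_rpow_of_nonpos (by positivity) h6 (by linarith)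
      have h10 : (((n:ℝ) + 1) / 4) ^ (-t) = 4 ^ t * ((n:ℝ) + 1) ^ (-t) := by
        rw [Real.div_rpow (by positivity) (by norm_num), Real.rpow_neg (by norm_num : (0:ℝ) ≤ 4),
          div_inv_eq_mul, mul_comm]
      calc (2 * c) * (k:ℝ) ^ (-t) ≤ (2 * c) * (((n:ℝ) + 1) / 4) ^ (-t) := by gcongr
        _ = _ := by rw [h10]; ring
    have hlarge : ∀ n : ℕ, 2 * k0 + 2 ≤ n →
        b n ≤ (1 + C) * ((2 * c) * 4 ^ t) * ((n:ℝ) + 1) ^ (-t) := by
      intro n hn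
      have hp : 0 ≤ (2 * c) * 4 ^ t * ((n:ℝ) + 1) ^ (-t) := by positivity
      rcases Nat.even_or_odd' n with ⟨k, hk | hk⟩
      · have h11 := hk0' k (by omega) n (by omega)
        rw [← hk] at h11
        nlinarith
      · have h12 := hk0' (k + 1) (by omega) n (by omega)
        have h13 := hodd n
        have h14 : n + 1 = 2 * (k + 1) := by omega
        rw [h14] at h13
        have h15 : C * b (2 * (k + 1)) ≤ C * ((2 * c) * 4 ^ t * ((n:ℝ) + 1) ^ (-t)) := by gcongr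
        nlinarith
    -- and for small n
    have hfin : ∃ C2 : ℝ, 0 < C2 ∧ ∀ n : ℕ, n < 2 * k0 + 2 → b n ≤ C2 * ((n:ℝ) + 1) ^ (-t) := by
      refine ⟨∑ m ∈ range (2 * k0 + 2), b m * ((m:ℝ) + 1) ^ t + 1, ?_, ?_⟩
      · have : 0 ≤ ∑ m ∈ range (2 * k0 + 2), b m * ((m:ℝ) + 1) ^ t :=
          Finset.sum_nonneg (fun m _ => mul_nonneg (hb0 m) (by positivity))
        linarith
      · intro n hn
        have h16 : b n * ((n:ℝ) + 1) ^ t ≤ ∑ m ∈ range (2 * k0 + 2), b m * ((m:ℝ) + 1) ^ t :=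
          Finset.single_le_sum (f := fun m : ℕ => b m * ((m:ℝ) + 1) ^ t)
            (fun m _ => mul_nonneg (hb0 m) (by positivity)) (mem_range.2 hn)
        have h17 : b n = b n * ((n:ℝ) + 1) ^ t * ((n:ℝ) + 1) ^ (-t) := by
          rw [mul_assoc, ← Real.rpow_add (by positivity), add_neg_cancel, Real.rpow_zero, mul_one]
        rw [h17]
        have h18 : 0 ≤ ((n:ℝ) + 1) ^ (-t) := by positivity
        refine mul_le_mul_of_nonneg_right ?_ h18
        linarith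
    obtain ⟨C2, hC2, hfin⟩ := hfin
    refine ⟨(1 + C) * ((2 * c) * 4 ^ t) + C2, by positivity, ?_⟩
    intro n
    have hp : 0 ≤ ((n:ℝ) + 1) ^ (-t) := by positivity
    have hp2 : 0 ≤ (1 + C) * ((2 * c) * 4 ^ t) := by positivity
    rcases lt_or_ge n (2 * k0 + 2) with hn | hn
    · have := hfin n hn
      nlinarith [mul_nonneg hp2 hp]
    · have := hlarge n hn
      nlinarith [mul_nonneg hC2.le hp]

end Pool.Agent.H977_rd
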