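import Mathlib
import Pool.Agent.H977_rd.Crit
import Pool.Agent.H977_rd.Taub

set_option autoImplicit false
open Finset Filter Topology Monoid Monoid.CoprodI

namespace Pool.Agent.H977_rd

lemma Mop_ge {G : Type*} [Group G] {ν : G →₀ ℝ} (hν : ∀ x, 0 ≤ ν x) {h : G → ℝ}
    (hh : ∀ x, 0 ≤ h x) (x : G) : ν 1 * h x ≤ Mop ν h x := by
  unfold Mop Finsupp.sum
  by_cases h1 : (1:G) ∈ ν.support
  · have := Finset.single_le_sum (f := fun y => ν y * h (y⁻¹ * x))
      (fun y _ => mul_nonneg (hν y) (hh _)) h1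
    simpa using this
  · rw [Finsupp.notMem_support_iff] at h1
    rw [h1, zero_mul]
    exact Finset.sum_nonneg (fun y _ => mul_nonneg (hν y) (hh _))

lemma nuA_one_pos : 0 < nuA 1 := by
  show 0 < ∏ j : Fin 6, qz (Multiplicative.toAdd (1:AA) j)
  refine Finset.prod_pos ?_
  intro j _
  simp [qz]

lemma nu_one_pos {Λ : ℝ} (hΛ : 0 < Λ) : 0 < nu Λ (1 : Gm) := by
  rw [nu_apply]
  have h1 : mD true nuA (1 : Gm) = nuA 1 := by
    have e : of (M := fun _ : Bool => AA) (i := true) 1 = (1 : Gm) := map_one _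
    have e2 := mD_of true nuA 1
    exact (congrArg (fun y : Gm => mD true nuA y) e).symm.trans e2
  have h2 := mD_nonneg false nuB_nonneg (1 : Gm)
  rw [h1]
  have h3 := nuA_one_pos
  have h4 : 0 < 1 / (1 + Λ) := by positivity
  have h5 : 0 < Λ / (1 + Λ) := by positivity
  have h6 : 0 < 1 / (1 + Λ) * nuA 1 := mul_pos h4 h3
  have h7 : 0 ≤ Λ / (1 + Λ) * mD false nuB 1 := mul_nonneg h5.le h2
  linarith

/-- return probabilities -/
noncomputable def aa (n : ℕ) : ℝ := (Mop (nu Lam))^[n] dl (1 : Gm)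

noncomputable def bb (n : ℕ) : ℝ := zz Lam 1 ^ n * aa n

lemma aa_nonneg (n : ℕ) : 0 ≤ aa n := Mop_iter_nonneg (nu_nonneg Lam_pos) n dl_nonneg 1

lemma zz1_pos : 0 < zz Lam 1 := zz_one_pos Lam_pos

lemma bb_nonneg (n : ℕ) : 0 ≤ bb n := mul_nonneg (pow_nonneg zz1_pos.le n) (aa_nonneg n)

lemma aa_succ (n : ℕ) : nu Lam (1 : Gm) * aa n ≤ aa (n + 1) := by
  unfold aa
  rw [Function.iterate_succ_apply']
  exact Mop_ge (nu_nonneg Lam_pos) (fun x => Mop_iter_nonneg (nu_nonneg Lam_pos) n dl_nonneg x) 1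

lemma bb_odd : ∃ C : ℝ, 0 < C ∧ ∀ n, bb n ≤ C * bb (n + 1) := by
  have h1 := nu_one_pos Lam_pos
  have h2 := zz1_pos
  refine ⟨1 / (nu Lam (1 : Gm) * zz Lam 1), by positivity, ?_⟩
  intro n
  have h3 := aa_succ n
  have h4 : aa n ≤ aa (n + 1) / nu Lam (1 : Gm) := by
    rw [le_div_iff₀ h1]
    linarith
  unfold bb
  calc zz Lam 1 ^ n * aa n ≤ zz Lam 1 ^ n * (aa (n + 1) / nu Lam (1 : Gm)) := by gcongr
    _ = 1 / (nu Lam (1 : Gm) * zz Lam 1) * (zz Lam 1 ^ (n + 1) * aa (n + 1)) := by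
        rw [pow_succ]
        field_simp

lemma bb_summable : Summable bb := by
  refine summable_of_sum_range_le bb_nonneg (c := GG Lam 1) ?_
  intro N
  exact partial_one Lam_pos N

lemma bb_tsum_le : ∑' n, bb n ≤ GG Lam 1 :=
  bb_summable.tsum_le_of_sum_range_le (fun N => partial_one Lam_pos N)

lemma ev_small : ∀ᶠ h in 𝓝[>] (0:ℝ), 0 < h ∧ h < 1 := by
  have h1 : ∀ᶠ h in 𝓝[>] (0:ℝ), (0:ℝ) < h := eventually_mem_nhdsWithin
  have h2 : ∀ᶠ h in 𝓝[>] (0:ℝ), h < 1 :=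
    (tendsto_id.mono_left nhdsWithin_le_nhds).eventually_lt_const (by norm_num : (0:ℝ) < 1)
  exact h1.and h2

lemma ev_eps_ge (K : ℝ) (hK : 0 ≤ K) : ∀ᶠ h in 𝓝[>] (0:ℝ), K * h ^ 2 ≤ eps h := by
  obtain ⟨h0, h0pos, _, hh⟩ := eps_ge K hK
  have h1 : ∀ᶠ h in 𝓝[>] (0:ℝ), (0:ℝ) < h := eventually_mem_nhdsWithin
  have h2 : ∀ᶠ h in 𝓝[>] (0:ℝ), h < h0 :=
    (tendsto_id.mono_left nhdsWithin_le_nhds).eventually_lt_const h0pos
  filter_upwards [h1, h2] with h a b
  exact hh h a b.le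

lemma zz_pos {h : ℝ} (h0 : 0 ≤ h) (h1 : h < 1) : 0 < zz Lam (1 - h) := by
  unfold zz
  have h2 := th_pos (s := 1 - h) (by linarith) (by linarith)
  have h3 := GG_ge_one (Λ := Lam) (s := 1 - h) (by linarith) (by linarith)
  have h4 := Lam_pos
  positivity

lemma ev_eps_pos : ∀ᶠ h in 𝓝[>] (0:ℝ), 0 < eps h ∧ eps h < 1 := by
  filter_upwards [ev_small, ev_eps_ge 1 zero_le_one] with h ⟨h0, h1⟩ h2
  constructor
  · have : 0 < 1 * h ^ 2 := by positivity
    linarith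
  · unfold eps
    have h3 := zz_pos h0.le h1
    have h4 := zz1_pos
    have : 0 < zz Lam (1 - h) / zz Lam 1 := by positivity
    linarith

lemma ev_hasSum1 : ∀ᶠ h in 𝓝[>] (0:ℝ),
    HasSum (fun n => bb n * (1 - eps h) ^ n) (GG Lam (1 - h)) := by
  filter_upwards [ev_small, ev_eps_pos] with h ⟨h0, h1⟩ ⟨h2, h3⟩
  have h4 := zz1_pos
  have h5 : zz Lam (1 - h) = zz Lam 1 * (1 - eps h) := by
    unfold eps
    field_simp
    ring
  have h6 : zz Lam (1 - h) < zz Lam 1 := by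
    rw [h5]
    nlinarith
  have h7 := green_param Lam_pos (by linarith : 0 < 1 - h) (by linarith) h6
  refine h7.congr_fun ?_
  intro n
  unfold bb aa
  rw [h5, mul_pow]
  ring

lemma bb_tsum : ∑' n, bb n = GG Lam 1 := by
  apply le_antisymm bb_tsum_le
  have h1 : ∀ᶠ h in 𝓝[>] (0:ℝ), GG Lam 1 - (kap + pp * kap) * h ≤ ∑' n, bb n := by
    filter_upwards [ev_small, ev_eps_pos, ev_hasSum1] with h ⟨h0, h1⟩ ⟨h2, h3⟩ h4
    have h5 : GG Lam (1 - h) ≤ ∑' n, bb n := by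
      refine hasSum_le ?_ h4 bb_summable.hasSum
      intro n
      have h6 := bb_nonneg n
      have h7 : (1 - eps h) ^ n ≤ 1 := pow_le_one₀ (by linarith) (by linarith)
      nlinarith
    have h8 := dlt_le h0.le h1
    unfold dlt at h8
    linarith
  have h2 : Tendsto (fun h : ℝ => GG Lam 1 - (kap + pp * kap) * h) (𝓝[>] 0) (𝓝 (GG Lam 1)) := by
    have : Tendsto (fun h : ℝ => GG Lam 1 - (kap + pp * kap) * h) (𝓝 0)
        (𝓝 (GG Lam 1 - (kap + pp * kap) * 0)) := by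
      apply Continuous.tendsto
      fun_prop
    rw [mul_zero, sub_zero] at this
    exact this.mono_left nhdsWithin_le_nhds
  exact le_of_tendsto h2 h1

lemma ev_hasSum : ∀ᶠ h in 𝓝[>] (0:ℝ),
    HasSum (fun n => bb n * (1 - (1 - eps h) ^ n)) (dlt h) := by
  filter_upwards [ev_hasSum1] with h h1
  have h2 : HasSum bb (GG Lam 1) := by
    rw [← bb_tsum]
    exact bb_summable.hasSum
  have h3 := h2.sub h1
  unfold dlt
  refine h3.congr_fun ?_
  intro n
  ring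

lemma eps_tendsto : Tendsto eps (𝓝[>] 0) (𝓝 0) := by
  obtain ⟨C, hC, hh⟩ := eps_le (η := 1 / 2) (by norm_num) (by norm_num)
  have h1 : Tendsto (fun h : ℝ => C * h ^ (2 - 1 / 2 : ℝ)) (𝓝[>] 0) (𝓝 0) := by
    have h2 : Tendsto (fun h : ℝ => h ^ (2 - 1 / 2 : ℝ)) (𝓝 0) (𝓝 ((0:ℝ) ^ (2 - 1 / 2 : ℝ))) :=
      (Real.continuousAt_rpow_const 0 _ (Or.inr (by norm_num))).tendsto
    rw [Real.zero_rpow (by norm_num)] at h2
    have h3 := (h2.const_mul C).mono_left (nhdsWithin_le_nhds (s := Set.Ioi (0:ℝ)))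
    simpa using h3
  refine squeeze_zero' ?_ ?_ h1
  · filter_upwards [ev_eps_pos] with h h2
    exact h2.1.le
  · filter_upwards [ev_small] with h h2
    exact hh h h2.1 h2.2

/-- The return probabilities of this walk are not asymptotic to any `c n^(-d) ρ^(2n)`. -/
theorem main (c d ρ : ℝ) (hc : 0 < c) :
    ¬ Asymptotics.IsEquivalent atTop (fun n : ℕ => aa (2 * n))
      (fun n : ℕ => c * (n : ℝ) ^ (-d) * ρ ^ (2 * n)) := by
  intro heq
  have hno := no_power_law bb bb_nonneg bb_odd eps dlt ev_eps_pos ev_hasSum eps_tendsto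
    ⟨kap + pp * kap, by have := kap_pos; have := pp_pos; positivity, by
      filter_upwards [ev_small] with h h1
      exact dlt_le h1.1.le h1.2⟩
    ⟨1 / 64, by norm_num, by
      filter_upwards [ev_small] with h h1
      have := dlt_ge h1.1.le h1.2
      linarith⟩
    ev_eps_ge
    (by
      intro η hη hη1
      obtain ⟨C, hC, hh⟩ := eps_le hη hη1
      refine ⟨C, hC, ?_⟩
      filter_upwards [ev_small] with h h1
      exact hh h h1.1 h1.2)
    c d ((ρ * zz Lam 1) ^ 2) hc (sq_nonneg _)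
  apply hno
  have h1 : Asymptotics.IsEquivalent atTop (fun n : ℕ => zz Lam 1 ^ (2 * n))
    (fun n : ℕ => zz Lam 1 ^ (2 * n)) := Asymptotics.IsEquivalent.refl
  have h2 := h1.mul heq
  refine (h2.congr_left ?_).congr_right ?_
  · exact Filter.Eventually.of_forall (fun n => rfl)
  · refine Filter.Eventually.of_forall (fun n => ?_)
    simp only [Pi.mul_apply]
    rw [mul_pow, mul_pow, ← pow_mul, ← pow_mul]
    ring

end Pool.Agent.H977_rd
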